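import Mathlib

/-! Finitely many complex numbers are `p`-adic integers for some large prime `p`. -/

set_option autoImplicit false

namespace Pool.Agent.MP_ee8c61_ag.G34

open Polynomial Function

theorem schur (f : ℤ[X]) (hd : 0 < f.natDegree) (N : ℕ) :
    ∃ p : ℕ, p.Prime ∧ N < p ∧ ∃ r : ℤ, (p : ℤ) ∣ f.eval r := by
  by_cases h0 : f.eval 0 = 0
  · obtain ⟨p, h1, h2⟩ := Nat.exists_infinite_primes (N + 1)
    exact ⟨p, h2, h1, 0, by simp [h0]⟩
  have hM : f.eval 0 * N.factorial ≠ 0 := mul_ne_zero h0 (by exact_mod_cast N.factorial_ne_zero)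
  obtain ⟨t, ht⟩ : ∃ t : ℤ, ¬ IsRoot (f * f - C (f.eval 0 ^ 2)) (f.eval 0 * N.factorial * t) := by
    by_contra h
    push Not at h
    have h1 := eq_zero_of_infinite_isRoot _ (Set.infinite_of_injective_forall_mem
      (mul_right_injective₀ hM) h)
    have h2 := congrArg natDegree (sub_eq_zero.1 h1)
    have h3 : f ≠ 0 := fun e => by simp [e] at hd
    rw [natDegree_mul h3 h3, natDegree_C] at h2
    omega
  obtain ⟨u, hu⟩ := sub_dvd_eval_sub (f.eval 0 * N.factorial * t) 0 f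
  have h1 : f.eval (f.eval 0 * N.factorial * t) = f.eval 0 * (1 + N.factorial * (t * u)) := by
    linear_combination hu
  obtain ⟨p, hp, h2⟩ := Int.exists_prime_and_dvd (n := 1 + N.factorial * (t * u)) fun e => ht (by
    rw [IsRoot, eval_sub, eval_mul, eval_C, h1]
    linear_combination f.eval 0 ^ 2 * Int.isUnit_mul_self (Int.isUnit_iff_natAbs_eq.2 e))
  refine ⟨p.natAbs, Int.prime_iff_natAbs_prime.1 hp, not_le.1 fun h => hp.not_dvd_one
    ((dvd_add_left (Dvd.dvd.mul_right ?_ _)).1 h2), _, Int.natAbs_dvd.2 (h1 ▸ h2.mul_left _)⟩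
  exact Int.natAbs_dvd.1 (Int.natCast_dvd_natCast.2
    (Nat.dvd_factorial (Int.natAbs_pos.2 hp.ne_zero) h))

open Cardinal in
theorem card_padic (p : ℕ) [Fact p.Prime] : #ℚ_[p] = continuum := by
  refine le_antisymm ?_ (continuum_le_cardinal_of_nontriviallyNormedField _)
  have h1 : #ℚ_[p] ≤ #(PadicSeq p) := mk_quotient_le
  have h2 : #(PadicSeq p) ≤ #(ℕ → ℚ) := mk_subtype_le _
  refine h1.trans (h2.trans ?_)
  simp

theorem data {ι : Type} [Fintype ι] (c : ι → ℂ) :
    ∃ (s : ℕ) (τ : MvPolynomial (Fin s) ℤ →+* ℂ) (θ : ℂ) (f v : (MvPolynomial (Fin s) ℤ)[X])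
      (D : MvPolynomial (Fin s) ℤ) (g : ι → (MvPolynomial (Fin s) ℤ)[X]),
      Injective τ ∧ f.Monic ∧ 0 < f.natDegree ∧ (∀ q, eval₂ τ θ q = 0 ↔ f ∣ q) ∧ D ≠ 0 ∧
        f ∣ v * derivative f - C D ∧ ∀ i, τ D * c i = eval₂ τ θ (g i) := by
  classical
  let R := Algebra.adjoin ℚ (Set.range c)
  have : Algebra.FiniteType ℚ R := .adjoin_of_finite (Set.finite_range c)
  obtain ⟨s, g₁, inj, int⟩ := exists_integral_inj_algHom_of_fg ℚ R
  let A := MvPolynomial (Fin s) ℤ
  let τ₀ : MvPolynomial (Fin s) ℚ →+* ℂ := R.val.toRingHom.comp g₁.toRingHom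
  let τ : A →+* ℂ := τ₀.comp (MvPolynomial.map (Int.castRingHom ℚ))
  have hτ : Injective τ := (Subtype.val_injective.comp inj).comp
    (MvPolynomial.map_injective _ (Int.castRingHom ℚ).injective_int)
  let _ : Algebra A ℂ := τ.toAlgebra
  let F := FractionRing A
  let _ : Algebra F ℂ := (IsFractionRing.lift hτ : F →+* ℂ).toAlgebra
  have hF : ∀ a : A, algebraMap F ℂ (algebraMap A F a) = τ a := IsFractionRing.lift_algebraMap hτ
  have : IsScalarTower A F ℂ := .of_algebraMap_eq fun a => (hF a).symm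
  have : FaithfulSMul A ℂ := (faithfulSMul_iff_algebraMap_injective A ℂ).2 hτ
  have : CharZero F := RingHom.charZero (algebraMap F ℂ)
  let ρ : MvPolynomial (Fin s) ℚ →+* F :=
    MvPolynomial.eval₂Hom (algebraMap ℚ F) fun j => algebraMap A F (MvPolynomial.X j)
  have hρ : (algebraMap F ℂ).comp ρ = τ₀ := MvPolynomial.ringHom_ext
    (fun q => RingHom.congr_fun (Subsingleton.elim
      (((algebraMap F ℂ).comp ρ).comp MvPolynomial.C) (τ₀.comp MvPolynomial.C)) q)
    fun j => by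
      rw [RingHom.comp_apply, MvPolynomial.eval₂Hom_X', hF]
      exact congrArg τ₀ (MvPolynomial.map_X _ j)
  have hc : ∀ x ∈ Set.range c, IsIntegral F x := fun x hx => by
    obtain ⟨P, h1, h2⟩ := int ⟨x, Algebra.subset_adjoin hx⟩
    refine ⟨P.map ρ, h1.map _, ?_⟩
    rw [eval₂_map, hρ]
    have := congrArg R.val.toRingHom h2
    rwa [hom_eval₂, map_zero] at this
  let L := IntermediateField.adjoin F (Set.range c)
  have : FiniteDimensional F L := IntermediateField.finiteDimensional_adjoin hc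
  obtain ⟨α, hα⟩ := Field.exists_primitive_element F L
  have ha : IsAlgebraic F α := Algebra.IsAlgebraic.isAlgebraic α
  obtain ⟨y, y0, hy⟩ := ((IsFractionRing.isAlgebraic_iff A F ℂ).2
    (ha.algHom L.val)).exists_integral_multiple
  set θ : ℂ := y • L.val α with hθ
  have hg : ∀ i, ∃ (b : A) (g : A[X]), b ≠ 0 ∧ τ b * c i = aeval θ g := fun i => by
    have h1 : (⟨c i, IntermediateField.subset_adjoin _ _ ⟨i, rfl⟩⟩ : L) ∈
        (IntermediateField.adjoin F {α}).toSubalgebra := by rw [hα]; trivial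
    rw [IntermediateField.adjoin_simple_toSubalgebra_of_isAlgebraic ha,
      Algebra.adjoin_singleton_eq_range_aeval] at h1
    obtain ⟨G, hG⟩ := h1
    have h2 : aeval θ (G.comp (C (algebraMap A F y)⁻¹ * X)) = c i := by
      have h3 : algebraMap F ℂ (algebraMap A F y) ≠ 0 := by
        rw [hF]; exact (map_ne_zero_iff _ hτ).2 y0
      rw [aeval_comp, map_mul, aeval_C, aeval_X, hθ, Algebra.smul_def, map_inv₀,
        IsScalarTower.algebraMap_apply A F ℂ, inv_mul_cancel_left₀ h3, aeval_algHom_apply]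
      exact congrArg L.val hG
    obtain ⟨b, hb, h4⟩ := IsLocalization.integerNormalization_spec (nonZeroDivisors A)
      (G.comp (C (algebraMap A F y)⁻¹ * X))
    refine ⟨b, IsLocalization.integerNormalization (nonZeroDivisors A)
      (G.comp (C (algebraMap A F y)⁻¹ * X)), nonZeroDivisors.ne_zero hb, ?_⟩
    rw [← aeval_map_algebraMap F, h4, ← IsScalarTower.algebraMap_smul F, map_smul, h2,
      Algebra.smul_def, hF]
  choose b g b0 hg using hg
  have hd := minpoly.natDegree_pos hy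
  have h5 : aeval θ (derivative (minpoly A θ)) ≠ 0 := fun h =>
    (natDegree_le_of_dvd (minpoly.isIntegrallyClosed_dvd hy h) fun h0 =>
      hd.ne' (derivative_eq_zero.1 h0)).not_gt (natDegree_derivative_lt hd.ne')
  obtain ⟨q, q0, hq⟩ := (IsIntegral.isAlgebraic ((mem_integralClosure_iff A ℂ).1
    (adjoin_le_integralClosure hy (aeval_mem_adjoin_singleton A (p := derivative (minpoly A θ))
      θ)))).exists_nonzero_coeff_and_aeval_eq_zero
      (mem_nonZeroDivisors_of_ne_zero h5)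
  refine ⟨s, τ, θ, minpoly A θ, -C (∏ i, b i) * q.divX.comp (derivative (minpoly A θ)),
    q.coeff 0 * ∏ i, b i, fun i => C (q.coeff 0 * ∏ j ∈ Finset.univ.erase i, b j) * g i, hτ,
    minpoly.monic hy, hd, fun q => minpoly.isIntegrallyClosed_dvd_iff hy q,
    mul_ne_zero q0 (Finset.prod_ne_zero_iff.2 fun i _ => b0 i),
    minpoly.isIntegrallyClosed_dvd hy ?_, fun i => ?_⟩
  · rw [← X_mul_divX_add q] at hq
    simp only [map_add, map_mul, aeval_X, aeval_C] at hq
    simp only [map_sub, map_mul, map_neg, aeval_C, aeval_comp]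
    linear_combination (-algebraMap A ℂ (∏ i, b i)) * hq
  · rw [eval₂_mul, eval₂_C, ← Finset.prod_erase_mul _ _ (Finset.mem_univ i), ← mul_assoc, map_mul,
      mul_assoc, hg]
    rfl

open Cardinal in
theorem exists_indep (p : ℕ) [Fact p.Prime] (s : ℕ) (t : Fin s → ℤ) :
    ∃ x : Fin s → ℤ_[p], AlgebraicIndependent ℤ x ∧ ∀ j, PadicInt.toZMod (x j) = t j := by
  obtain ⟨B, hB⟩ := exists_isTranscendenceBasis ℤ ℤ_[p]
  have hinf : Infinite B := by
    by_contra h
    rw [not_infinite_iff_finite] at h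
    have := hB.isAlgebraic
    have h1 := Algebra.IsAlgebraic.cardinalMk_le_max 
      (Algebra.adjoin ℤ (Set.range ((↑) : B → ℤ_[p]))) ℤ_[p]
    have h2 : #(Algebra.adjoin ℤ (Set.range ((↑) : B → ℤ_[p]))) ≤ ℵ₀ := by
      rw [← hB.1.aevalEquiv.toEquiv.cardinal_eq]
      exact MvPolynomial.cardinalMk_le_max.trans
        (max_le (max_le mk_le_aleph0 mk_le_aleph0) le_rfl)
    have h3 : Countable ℤ_[p] := mk_le_aleph0_iff.1 (h1.trans (max_le h2 le_rfl))
    have h4 : Countable ℚ_[p] := (IsFractionRing.div_surjective (A := ℤ_[p]) (K := ℚ_[p]) |>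
      fun h => Function.Surjective.countable
        (f := fun a : ℤ_[p] × ℤ_[p] => (algebraMap _ ℚ_[p] a.1 / algebraMap _ _ a.2))
        fun z => by obtain ⟨a, b, -, e⟩ := h z; exact ⟨(a, b), e⟩)
    exact (mk_le_aleph0_iff.2 h4).not_gt (card_padic p ▸ aleph0_lt_continuum)
  let e : Fin s ↪ B := Fin.valEmbedding.trans (Infinite.natEmbedding B)
  have hp : (p : ℤ) ≠ 0 := by exact_mod_cast (Fact.out : p.Prime).ne_zero
  refine ⟨_, (hB.1.comp e e.injective).polynomial_aeval_of_transcendental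
    (f := fun j => C (p : ℤ) * X + C (t j)) fun j => Polynomial.transcendental _ ?_ ?_, fun j => ?_⟩
  · rw [natDegree_linear hp]; exact one_ne_zero
  · rw [leadingCoeff_linear hp]; exact mem_nonZeroDivisors_of_ne_zero hp
  · simp

open Cardinal in
theorem ext_equiv {R K L : Type} [CommRing R] [Field K] [Field L] [Algebra R K] [Algebra R L]
    [IsAlgClosed K] [IsAlgClosed L] [FaithfulSMul R K] [FaithfulSMul R L] (hR : #R ≤ ℵ₀)
    (hK : ℵ₀ < #K) (hKL : #K = #L) :
    ∃ e : K ≃+* L, ∀ r, e (algebraMap R K r) = algebraMap R L r := by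
  have := RingHom.domain_nontrivial (algebraMap R K)
  obtain ⟨s, hs⟩ := exists_isTranscendenceBasis R K
  obtain ⟨t, ht⟩ := exists_isTranscendenceBasis R L
  have h1 := IsAlgClosed.cardinal_eq_cardinal_transcendence_basis_of_aleph0_lt' _ hs hR hK
  have h2 := IsAlgClosed.cardinal_eq_cardinal_transcendence_basis_of_aleph0_lt' _ ht hR (hKL ▸ hK)
  obtain ⟨e⟩ := Cardinal.eq.1 (h1.symm.trans (hKL.trans h2))
  let _ := IsAlgClosed.isAlgClosure_of_transcendence_basis _ hs
  let _ := IsAlgClosed.isAlgClosure_of_transcendence_basis _ ht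
  let e' := hs.1.aevalEquiv.symm.trans ((MvPolynomial.renameEquiv R e).trans ht.1.aevalEquiv)
  refine ⟨IsAlgClosure.equivOfEquiv K L e'.toRingEquiv, fun r => ?_⟩
  rw [IsScalarTower.algebraMap_apply R (Algebra.adjoin R (Set.range ((↑) : s → K))) K,
    IsAlgClosure.equivOfEquiv_algebraMap,
    IsScalarTower.algebraMap_apply R (Algebra.adjoin R (Set.range ((↑) : t → L))) L]
  exact congrArg _ (e'.commutes r)

open Cardinal in
theorem ext_padic (p : ℕ) [Fact p.Prime] {B : Type} [CommRing B] [Countable B] (φ : B →+* ℤ_[p])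
    (j : B →+* ℂ) (hφ : Injective φ) (hj : Injective j) :
    ∃ ψ : ℤ_[p] →+* ℂ, Injective ψ ∧ ∀ b, ψ (φ b) = j b := by
  let K := AlgebraicClosure ℚ_[p]
  have h1 : #K = continuum := by
    refine le_antisymm ?_ ?_
    · refine (Algebra.IsAlgebraic.cardinalMk_le_max ℚ_[p] _).trans ?_
      rw [card_padic]
      exact max_le le_rfl aleph0_le_continuum
    · rw [← card_padic p]
      exact mk_le_of_injective (algebraMap ℚ_[p] K).injective
  let u : ℤ_[p] →+* K := (algebraMap ℚ_[p] K).comp PadicInt.Coe.ringHom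
  have hu : Injective u := (algebraMap ℚ_[p] K).injective.comp Subtype.val_injective
  obtain ⟨e, he⟩ := @ext_equiv B K ℂ _ _ _ (u.comp φ).toAlgebra j.toAlgebra _ _
    ((@faithfulSMul_iff_algebraMap_injective B K _ _ (u.comp φ).toAlgebra).2 (hu.comp hφ))
    ((@faithfulSMul_iff_algebraMap_injective B ℂ _ _ j.toAlgebra).2 hj) mk_le_aleph0
    (by rw [h1]; exact aleph0_lt_continuum) (by rw [h1, mk_complex])
  exact ⟨e.toRingHom.comp u, e.injective.comp hu, he⟩

theorem cassels {ι : Type} [Fintype ι] (c : ι → ℂ) (p₀ : ℕ) :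
    ∃ (p : ℕ) (_ : Fact p.Prime), p₀ < p ∧
      ∃ (ψ : ℤ_[p] →+* ℂ) (a : ι → ℤ_[p]), Injective ψ ∧ ∀ i, ψ (a i) = c i := by
  obtain ⟨s, τ, θ, f, v, D, g, hτ, hm, hd, hf, hD, hv, hg⟩ := data c
  obtain ⟨t, ht⟩ : ∃ t : Fin s → ℤ, MvPolynomial.eval t D ≠ 0 := by
    by_contra h
    push Not at h
    exact hD (MvPolynomial.funext fun t => by rw [h t, map_zero])
  obtain ⟨p, hp, h1, r, hr⟩ := schur (f.map (MvPolynomial.eval t))
    (by rwa [hm.natDegree_map]) (max p₀ (MvPolynomial.eval t D).natAbs)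
  have : Fact p.Prime := ⟨hp⟩
  refine ⟨p, this, (le_max_left _ _).trans_lt h1, ?_⟩
  obtain ⟨x, hx, hxt⟩ := exists_indep p s t
  let σ : MvPolynomial (Fin s) ℤ →+* ℤ_[p] := (MvPolynomial.aeval x).toRingHom
  have hσ : PadicInt.toZMod.comp σ = (Int.castRingHom (ZMod p)).comp (MvPolynomial.eval t) :=
    MvPolynomial.ringHom_ext (fun a => by simp [σ]) fun j => by simp [σ, hxt]
  have un : ∀ z : ℤ_[p], ‖z‖ < 1 ↔ PadicInt.toZMod z = 0 := fun z => by
    rw [← RingHom.mem_ker, PadicInt.ker_toZMod, IsLocalRing.mem_maximalIdeal, PadicInt.mem_nonunits]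
  have hD' : PadicInt.toZMod (σ D) ≠ 0 := by
    rw [← RingHom.comp_apply, hσ, RingHom.comp_apply, eq_intCast, Ne,
      ZMod.intCast_zmod_eq_zero_iff_dvd]
    intro h
    have := Nat.le_of_dvd (Int.natAbs_pos.2 ht) (Int.natCast_dvd.1 h)
    have := le_max_right p₀ (MvPolynomial.eval t D).natAbs
    omega
  have h2 : PadicInt.toZMod (eval₂ σ (r : ℤ_[p]) f) = 0 := by
    rw [hom_eval₂, hσ, map_intCast, ← eq_intCast (Int.castRingHom (ZMod p)), ← hom_eval₂,
      ← eval_map, eq_intCast, ZMod.intCast_zmod_eq_zero_iff_dvd]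
    exact hr
  have h3 : PadicInt.toZMod (eval₂ σ (r : ℤ_[p]) (derivative f)) ≠ 0 := fun h => by
    obtain ⟨u, hu⟩ := hv
    have := congrArg (fun q => PadicInt.toZMod (eval₂ σ (r : ℤ_[p]) q)) hu
    simp only [eval₂_sub, eval₂_mul, eval₂_C, map_sub, map_mul, h, h2, mul_zero, zero_mul, zero_sub,
      neg_eq_zero] at this
    exact hD' this
  obtain ⟨z, hz, -⟩ := hensels_lemma (F := f.map σ) (a := (r : ℤ_[p])) (by
    rw [derivative_map, coe_aeval_eq_eval, eval_map, eval_map, le_antisymm (PadicInt.norm_le_one _)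
      (not_lt.1 fun h => h3 ((un _).1 h)), one_pow]
    exact (un _).2 h2)
  rw [coe_aeval_eq_eval, eval_map] at hz
  let j : AdjoinRoot f →+* ℂ := AdjoinRoot.lift τ θ ((hf f).2 dvd_rfl)
  let φ : AdjoinRoot f →+* ℤ_[p] := AdjoinRoot.lift σ z hz
  have hj : Injective j := (injective_iff_map_eq_zero _).2 fun a ha => by
    obtain ⟨q, rfl⟩ := AdjoinRoot.mk_surjective a
    exact AdjoinRoot.mk_eq_zero.2 ((hf q).1 (by rwa [AdjoinRoot.lift_mk] at ha))
  have : IsDomain (AdjoinRoot f) := hj.isDomain j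
  have := hm.finite_adjoinRoot
  have hφ : Injective φ := by
    rw [RingHom.injective_iff_ker_eq_bot]
    refine Ideal.eq_bot_of_comap_eq_bot (R := MvPolynomial (Fin s) ℤ) (eq_bot_iff.2 fun a ha => ?_)
    rw [Ideal.mem_comap, RingHom.mem_ker, AdjoinRoot.algebraMap_eq, AdjoinRoot.lift_of] at ha
    exact hx (ha.trans (map_zero _).symm)
  have : Countable (MvPolynomial (Fin s) ℤ) := Cardinal.mk_le_aleph0_iff.1
    (MvPolynomial.cardinalMk_le_max.trans
      (max_le (max_le Cardinal.mk_le_aleph0 Cardinal.mk_le_aleph0) le_rfl))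
  have : Countable (MvPolynomial (Fin s) ℤ)[X] := Cardinal.mk_le_aleph0_iff.1
    (cardinalMk_le_max.trans (max_le Cardinal.mk_le_aleph0 le_rfl))
  have : Countable (AdjoinRoot f) := AdjoinRoot.mk_surjective.countable
  obtain ⟨ψ, h4, h5⟩ := ext_padic p φ j hφ hj
  obtain ⟨w, hw⟩ := (PadicInt.isUnit_iff.2 (le_antisymm (PadicInt.norm_le_one _)
    (not_lt.1 fun h => hD' ((un _).1 h)))).exists_right_inv
  refine ⟨ψ, fun i => w * φ (AdjoinRoot.mk f (g i)), h4, fun i => ?_⟩
  have h6 := h5 (AdjoinRoot.of f D)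
  rw [AdjoinRoot.lift_of, AdjoinRoot.lift_of] at h6
  rw [map_mul, h5, AdjoinRoot.lift_mk, ← hg, ← h6, ← mul_assoc, ← map_mul, mul_comm w, hw, map_one,
    one_mul]

end Pool.Agent.MP_ee8c61_ag.G34
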