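import Pool.Agent.MP_ee8c61_ag.G34.Ev
import Pool.Agent.MP_ee8c61_ag.G34.Cas

/-! Spreading out a system of charts. -/

set_option autoImplicit false

namespace Pool.Agent.MP_ee8c61_ag.G34

open Function H59 Filter Algebra

theorem ker_p {l : ℕ} [Fact l.Prime] {c : ℤ_[l]} (h : PadicInt.toZMod c = 0) : (l : ℤ_[l]) ∣ c := by
  rwa [← RingHom.mem_ker, PadicInt.ker_toZMod, PadicInt.maximalIdeal_eq_span_p,
    Ideal.mem_span_singleton] at h

theorem red {O ι J : Type} {n m : ℕ} {l : ℕ} [hl : Fact l.Prime] [CommRing O] [Algebra ℤ_[l] O]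
    [Finite ι] [Fintype J] (S : Sys ℤ_[l] O ι J n) (hS : S.Good) {x : Fin m → O} {w : J → ℤ}
    {ρ : ι → Oˣ} (hP : S.Pol x w ρ) (sat : ∀ a (g : O), l * g ∈ S.A a → g ∈ S.A a)
    (tf : ∀ g : O, l * g = 0 → g = 0) :
    ∃ (F : Type) (_ : CommRing F) (_ : Algebra (ZMod l) F) (SF : Sys (ZMod l) F ι J n)
      (rd : O →+* F) (ρF : ι → Fˣ) (δ : ι → Fin n → F), RedOK l S SF rd ∧ SF.Good ∧
      SF.Pol (fun i => rd (x i)) w ρF ∧ SF.FD l δ := by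
  let q := Ideal.Quotient.mk (Ideal.span {(l : O)})
  have k0 : ∀ g, q g = 0 ↔ (l : O) ∣ g := fun g =>
    Ideal.Quotient.eq_zero_iff_mem.trans Ideal.mem_span_singleton
  have sj : Surjective (PadicInt.toZMod : ℤ_[l] →+* ZMod l) := ZMod.ringHom_surjective _
  let f : ZMod l →+* O ⧸ Ideal.span {(l : O)} := PadicInt.toZMod.liftOfSurjective sj
    ⟨q.comp (algebraMap _ O), fun c hc => (k0 _).2 (by simpa using map_dvd (algebraMap _ O) (ker_p hc))⟩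
  let _ := f.toAlgebra
  have h : QD PadicInt.toZMod q := ⟨sj, Ideal.Quotient.mk_surjective, fun c =>
    (RingHom.liftOfSurjective_comp_apply _ sj ⟨q.comp _, _⟩ c).symm, fun D g hg => by
      obtain ⟨d, rfl⟩ := (k0 g).1 hg
      exact (k0 _).2 ⟨D d, by simp [Derivation.leibniz]⟩⟩
  obtain ⟨δ, hδ⟩ := fd hl.out rfl h hS (fun o => ker_p (by simp [ZMod.pow_card])) tf
  refine ⟨_, _, _, h.sys S, q, _, δ, ⟨h.hom, h.alg, fun a g hg => hg, fun g => (k0 g).1, sat, tf⟩,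
    h.good hS (l := l) (by simp) fun a g hg e => ?_, h.pol hP, hδ⟩
  obtain ⟨d, rfl⟩ := (k0 g).1 e
  exact ⟨d, sat a d hg, by simp⟩

end Pool.Agent.MP_ee8c61_ag.G34

namespace Pool.Agent.MP_ee8c61_ag.H59

open Function G34 Filter Algebra

theorem rowSpread : SSpread := by
  intro Ω ι J n m _ _ _ _ ⟨a₀⟩ _ S x w ρ x0 B hS hP
  choose G hG e using fun a => Subalgebra.fg_def.1 (hS.fg a)
  obtain ⟨s, hs⟩ := ev_fin ((ev_rd hS hG e).and ((ev_good hS hG e).and ((ev_pol hS hG e hP).and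
    ((ev_ld hS hG e a₀).and ((ev_st hS hG e).and (eventually_all.2 fun l => ev_mem (x0 l)))))))
  obtain ⟨l, hl, hB, ψ, c, hi, hc⟩ := cassels (fun a : s => (a : ℂ)) B
  obtain ⟨a1, a2, a3, a4, a5, a6⟩ := hs ψ.range fun a ha => ⟨_, hc ⟨a, ha⟩⟩
  let _ := ψ.toAlgebra
  let _ := ((algebraMap ℂ Ω).comp ψ).toAlgebra
  have : IsScalarTower ℤ_[l] ℂ Ω := .of_algebraMap_eq fun _ => rfl
  have h := a1 ℤ_[l] hi rfl
  have hg := a2 ℤ_[l] hi rfl h
  obtain ⟨x', ρ', h1, h2⟩ := a3 ℤ_[l] hi rfl h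
  choose y hy using a6
  obtain ⟨F, _, _, SF, rd, ρF, δ, b1, b2, b3, b4⟩ := red h.sys hg h2 (fun a g hg =>
    a5 ℤ_[l] hi rfl l PadicInt.prime_p a g g.2 (by rw [map_natCast]; exact hg)) fun g hg => by
      have h3 : IsUnit (l : Ω) := by
        simpa using (Ne.isUnit (Nat.cast_ne_zero.2 hl.out.ne_zero : (l : ℂ) ≠ 0)).map (algebraMap ℂ Ω)
      exact Subtype.ext (h3.mul_right_eq_zero.1 (congrArg Subtype.val hg))
  refine ⟨l, hl, _, F, _, _, _, _, h.sys, SF, ψ, _, rd, x', y, ρ', ρF, δ, hB, ⟨h.hom, hi,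
    fun _ => rfl, fun a g hg => ?_, a4 ℤ_[l] hi rfl⟩, b1, h1, hy, hg.fg, h2, b2, b3, b4⟩
  have h3 : g ∈ Subalgebra.toSubmodule (adjoin ℂ (G a)) := (e a).ge hg
  rw [adjoin_eq_span] at h3
  refine Submodule.span_mono (fun u hu => ?_) h3
  have h4 : u ∈ adjoin ℤ_[l] (G a) :=
    (Submonoid.closure_le (S := (adjoin ℤ_[l] (G a)).toSubmonoid)).2 subset_adjoin hu
  exact ⟨⟨u, h.le a h4⟩, h4, rfl⟩

end Pool.Agent.MP_ee8c61_ag.H59
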