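import Pool.Agent.MP_ee8c61_ag.G34.Et
import Pool.Agent.MP_ee8c61_ag.H59.Defs

/-! The rings of a system of charts are localizations of each chart. -/

set_option autoImplicit false

namespace Pool.Agent.MP_ee8c61_ag.G34

open Function MvPolynomial H59

variable {k Ω ι J : Type} {n : ℕ} [CommRing k] [CommRing Ω] [Algebra k Ω] {S : Sys k Ω ι J n}

/-- fractions with denominators that are invertible in `T` -/
def Lq (A T : Subalgebra k Ω) : Subalgebra k Ω where
  carrier := {g | ∃ u : Ωˣ, (u : Ω) ∈ A ∧ ((u⁻¹ : Ωˣ) : Ω) ∈ T ∧ u * g ∈ A}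
  add_mem' := fun {a b} ⟨s, h1, h2, h⟩ ⟨t, g1, g2, g⟩ => ⟨s * t, mul_mem h1 g1, by
    rw [mul_inv]; exact mul_mem h2 g2, by
    convert add_mem (mul_mem g1 h) (mul_mem h1 g) using 1; push_cast; ring⟩
  mul_mem' := fun {a b} ⟨s, h1, h2, h⟩ ⟨t, g1, g2, g⟩ => ⟨s * t, mul_mem h1 g1, by
    rw [mul_inv]; exact mul_mem h2 g2, by convert mul_mem h g using 1; push_cast; ring⟩
  algebraMap_mem' c := ⟨1, one_mem _, by simp, by simp⟩

theorem le_Lq {T : Subalgebra k Ω} {a b : ι} (h : S.A a ⊔ S.A b ≤ T) : S.A b ≤ Lq (S.A a) T :=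
  fun g hg => (S.loc a b g hg).imp fun _ ⟨h1, h2, h3⟩ => ⟨h1, h h2, h3⟩

theorem le_AA {σ : Finset ι} {a : ι} (h : a ∈ σ) : S.A a ≤ S.AA σ :=
  le_iSup₂_of_le (f := fun a (_ : a ∈ σ) => S.A a) a h le_rfl

theorem AA_le {σ : Finset ι} {a : ι} (h : a ∈ σ) : S.AA σ ≤ Lq (S.A a) (S.AA σ) :=
  iSup₂_le fun _ hb => le_Lq (sup_le (le_AA h) (le_AA hb))

theorem sup_le_Lq (a b : ι) : S.A a ⊔ S.A b ≤ Lq (S.A a) (S.A a ⊔ S.A b) :=
  sup_le (le_Lq (sup_le le_sup_left le_sup_left)) (le_Lq le_rfl)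

theorem η_mem (S : Sys k Ω ι J n) (a : ι) (j : J) : (S.η a j : Ω) ∈ S.A a := by
  cases h : S.lab a j with
  | none => rw [S.η_none a j h]; exact one_mem _
  | some i => rw [S.η_some a j i h]; exact S.z_mem a i

theorem top_le_Lq (h : S.Good) (a : ι) : ⊤ ≤ Lq (S.A a) ⊤ := by
  refine h.gen.ge.trans (Algebra.adjoin_le ?_)
  rintro g (⟨b, hb⟩ | ⟨b, j, rfl⟩)
  · exact le_Lq le_top hb
  · obtain ⟨u, h1, -, h3⟩ := S.loc a b _ (η_mem S b j)
    exact ⟨u * S.η b j, h3, trivial, by simpa using h1⟩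

/-- the coordinates of the chart `a` in a bigger ring -/
noncomputable def zT (a : ι) {T : Subalgebra k Ω} (h : S.A a ≤ T) : MvPolynomial (Fin n) k →+* T :=
  eval₂Hom (algebraMap k T) fun i => ⟨S.z a i, h (S.z_mem a i)⟩

theorem zT_eq (a : ι) {T : Subalgebra k Ω} (h : S.A a ≤ T) :
    zT a h = (Subalgebra.inclusion h).toRingHom.comp (S.zh a).toRingHom :=
  ringHom_ext (fun c => by simp [zT, Sys.zh]) fun i => by simp [zT, Sys.zh]

theorem coe_zT (a : ι) {T : Subalgebra k Ω} (h : S.A a ≤ T) (p : MvPolynomial (Fin n) k) :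
    (zT a h p : Ω) = aeval (S.z a) p :=
  RingHom.congr_fun (ringHom_ext (f := T.val.toRingHom.comp (zT a h))
    (g := (aeval (S.z a) : _ →ₐ[k] Ω).toRingHom) (fun c => by simp [zT]) fun i => by simp [zT]) p

theorem zT_flat {a : ι} (he : (S.zh a).toRingHom.Etale) {T : Subalgebra k Ω} (h : S.A a ≤ T)
    (h' : T ≤ Lq (S.A a) T) : (zT a h).Flat ∧ (zT a h).FormallyUnramified := by
  obtain ⟨h1, h2⟩ := loc_flat (φ := (Subalgebra.inclusion h).toRingHom)
    (Subalgebra.inclusion_injective h) fun g => by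
      obtain ⟨u, a1, a2, a3⟩ := h' g.2
      exact ⟨⟨u, a1⟩, ⟨_, a3⟩, .of_mul_eq_one ⟨_, a2⟩ (Subtype.ext u.mul_inv),
        Subtype.ext (mul_comm _ _)⟩
  obtain ⟨h3, h4, -⟩ := RingHom.Etale.iff_flat_and_formallyUnramified.1 he
  rw [zT_eq]
  exact ⟨h3.comp h1, h4.comp h2⟩

theorem zT_et [IsNoetherianRing k] {a : ι} (he : (S.zh a).toRingHom.Etale) {T : Subalgebra k Ω}
    (h : S.A a ≤ T) (h' : T ≤ Lq (S.A a) T) (fg : T.FG) : (zT a h).Etale := by
  refine RingHom.Etale.iff_flat_and_formallyUnramified.2 ⟨(zT_flat he h h').1, (zT_flat he h h').2,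
    RingHom.FinitePresentation.of_finiteType.1 (RingHom.FiniteType.of_comp_finiteType (f := C) ?_)⟩
  rw [show (zT a h).comp C = algebraMap k T from RingHom.ext fun c => by simp [zT],
    RingHom.finiteType_algebraMap]
  exact ⟨T.fg_top.2 fg⟩

theorem monic_reg (g : Fin n → Polynomial k) (s : Finset (Fin n)) {i : Fin n} (hi : i ∉ s)
    (hg : (g i).Monic) (t : MvPolynomial (Fin n) k)
    (h : Polynomial.aeval (X i : MvPolynomial (Fin n) k) (g i) * t ∈ Ideal.span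
      ((fun l => Polynomial.aeval (X l : MvPolynomial (Fin n) k) (g l)) '' s)) :
    t ∈ Ideal.span ((fun l => Polynomial.aeval (X l : MvPolynomial (Fin n) k) (g l)) '' s) := by
  generalize hI : Ideal.span ((fun l => Polynomial.aeval (X l : MvPolynomial (Fin n) k) (g l)) '' s)
    = I at h
  let Ψ : MvPolynomial (Fin n) k →ₐ[k] Polynomial (MvPolynomial (Fin n) k ⧸ I) :=
    aeval fun l => if l = i then Polynomial.X else Polynomial.C (Ideal.Quotient.mk I (X l))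
  have h1 : I ≤ RingHom.ker Ψ := by
    refine hI.ge.trans (Ideal.span_le.2 ?_)
    rintro _ ⟨l, hl, rfl⟩
    have e : l ≠ i := fun e => hi (e ▸ hl)
    have h2 : Ψ (X l) = (Polynomial.CAlgHom.comp (Ideal.Quotient.mkₐ k I)) (X l) := by simp [Ψ, e]
    change Ψ _ = 0
    rw [← Polynomial.aeval_algHom_apply, h2, Polynomial.aeval_algHom_apply, AlgHom.comp_apply,
      Ideal.Quotient.mkₐ_eq_mk, Ideal.Quotient.eq_zero_iff_mem.2, map_zero]
    exact hI ▸ Ideal.subset_span ⟨l, hl, rfl⟩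
  have h2 : Ψ (Polynomial.aeval (X i) (g i)) = (g i).map (algebraMap k _) := by
    rw [← Polynomial.aeval_algHom_apply, show Ψ (X i) = Polynomial.X by simp [Ψ],
      Polynomial.aeval_X_left_eq_map]
  have h3 : Ψ (_ * t) = 0 := h1 h
  rw [map_mul, h2, (hg.map _).mul_right_eq_zero_iff] at h3
  have h4 : (Polynomial.evalRingHom (Ideal.Quotient.mk I (X i))).comp Ψ.toRingHom =
      Ideal.Quotient.mk I := ringHom_ext (fun c => by simp [Ψ]; rfl) fun l => by
    by_cases e : l = i <;> simp [Ψ, e]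
  rw [← Ideal.Quotient.eq_zero_iff_mem, ← h4]
  simp [h3]

theorem reg (h : S.Good) : S.Reg := by
  intro σ a ha g hg s i hi x hx H
  have key : ∀ y : S.AA σ, y ∈ (Ideal.span ((fun l => Polynomial.aeval
      (X l : MvPolynomial (Fin n) k) (g l)) '' s)).map (zT a (le_AA ha)) ↔
      ∃ c : Fin n → Ω, (∀ l, c l ∈ S.AA σ) ∧
        (y : Ω) = ∑ l ∈ s, Polynomial.aeval (S.z a l) (g l) * c l := fun y => by
    rw [Ideal.map_span, Set.image_image, Ideal.span, Submodule.mem_span_image_finset_iff_exists_fun']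
    have e : ∀ c : Fin n → S.AA σ, ((∑ l ∈ s, c l • zT a (le_AA ha) (Polynomial.aeval (X l) (g l)) :
        S.AA σ) : Ω) = ∑ l ∈ s, Polynomial.aeval (S.z a l) (g l) * c l := fun c => by
      simp [coe_zT, ← Polynomial.aeval_algHom_apply, mul_comm]
    exact ⟨fun ⟨c, hc⟩ => ⟨_, fun l => (c l).2, by rw [← hc, e]⟩,
      fun ⟨c, h1, h2⟩ => ⟨fun l => ⟨c l, h1 l⟩, Subtype.ext (by rw [e, h2])⟩⟩
  refine (key ⟨x, hx⟩).1 (flat_reg (zT_flat (h.et a) _ (AA_le ha)).1 _
    (monic_reg g s hi (hg i)) ((key _).2 ?_))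
  simpa [coe_zT, ← Polynomial.aeval_algHom_apply] using H

theorem z_reg [IsDomain k] (h : S.Good) (a : ι) (i : Fin n) (g : Ω) (e : S.z a i * g = 0) :
    g = 0 := by
  obtain ⟨u, h1, -, h3⟩ := top_le_Lq h a (Algebra.mem_top (x := g))
  have := et_reg (h.et a) ⊥ (a := X i) (X_ne_zero i) (r := ⟨_, h3⟩) (by
    rw [Ideal.map_bot, Ideal.mem_bot]
    exact Subtype.ext (by simp [Sys.zh, mul_left_comm _ (u : Ω), e]))
  rw [Ideal.map_bot, Ideal.mem_bot] at this
  exact u.mul_right_eq_zero.1 (congrArg Subtype.val this)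

theorem reduced [IsDomain k] (h : S.Good) (a : ι) : IsReduced Ω := ⟨fun g ⟨m, e⟩ => by
  obtain ⟨u, h1, -, h3⟩ := top_le_Lq h a (Algebra.mem_top (x := g))
  have := et_rad (h.et a) ⊥ (r := ⟨_, h3⟩) (n := m) (by
    rw [Ideal.map_bot, Ideal.mem_bot]
    exact Subtype.ext (by simp [mul_pow, e]))
  rw [Ideal.map_bot, Ideal.mem_bot] at this
  exact u.mul_right_eq_zero.1 (congrArg Subtype.val this)⟩

theorem span {l : ℕ} (hl : l.Prime) (h0 : (l : Ω) = 0) (hk : ∀ c : k, c ^ l = c) (h : S.Good) :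
    S.Span l := by
  intro σ a ha g hg
  let M : Submonoid Ω :=
    { carrier := {h | ∃ u ∈ S.AA σ, ∃ e : Fin n → ℕ, (∀ i, e i < l) ∧ h = u ^ l * ∏ i, S.z a i ^ e i}
      one_mem' := ⟨1, one_mem _, 0, fun _ => hl.pos, by simp⟩
      mul_mem' := by
        rintro _ _ ⟨u, hu, e, -, rfl⟩ ⟨v, hv, f, -, rfl⟩
        refine ⟨u * v * ∏ i, S.z a i ^ ((e i + f i) / l), mul_mem (mul_mem hu hv)
          (prod_mem fun i _ => pow_mem (le_AA ha (S.z_mem a i)) _), fun i => (e i + f i) % l,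
          fun i => Nat.mod_lt _ hl.pos, ?_⟩
        rw [mul_mul_mul_comm, mul_pow, mul_pow, mul_assoc (_ * _), ← Finset.prod_pow,
          ← Finset.prod_mul_distrib, ← Finset.prod_mul_distrib]
        congr 1
        refine Finset.prod_congr rfl fun i _ => ?_
        rw [← pow_add, ← pow_mul, ← pow_add, Nat.div_add_mod'] }
  have pw : ∀ u ∈ S.AA σ, u ^ l ∈ Subring.closure (M : Set Ω) := fun u hu =>
    Subring.subset_closure ⟨u, hu, 0, fun _ => hl.pos, by simp⟩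
  have key : ∀ r : S.A a, r ∈ (Subring.closure (M : Set Ω)).comap (S.A a).val.toRingHom := by
    obtain ⟨-, h4, h5⟩ := RingHom.Etale.iff_flat_and_formallyUnramified.1 (h.et a)
    refine unr_frob h4 (.of_finitePresentation h5) hl (Subtype.ext (by simpa using h0)) _ (fun t => ?_)
      fun r => pw r (le_AA ha r.2)
    induction t using MvPolynomial.induction_on with
    | C c => simpa [Sys.zh, ← map_pow, hk] using pw _ ((S.AA σ).algebraMap_mem c)
    | add p q hp hq => rw [map_add]; exact add_mem hp hq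
    | mul_X p i hp =>
      rw [map_mul]
      refine mul_mem hp (Subring.subset_closure ⟨1, one_mem _, Pi.single i 1, fun j => ?_, ?_⟩)
      · by_cases e : j = i <;> simp [e, hl.one_lt, hl.pos]
      · rw [Finset.prod_eq_single i (fun j _ e => by simp [e]) (by simp)]
        simp [Sys.zh]
  obtain ⟨u, h1, h2, h3⟩ := AA_le ha hg
  have := mul_mem (pw _ h2) (key ⟨_, mul_mem (pow_mem h1 (l - 1)) h3⟩)
  rw [Subring.mem_closure_iff, Submonoid.closure_eq] at this
  have e : g = ((u⁻¹ : Ωˣ) : Ω) ^ l * ((u : Ω) ^ (l - 1) * (u * g)) := by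
    rw [← mul_assoc ((u : Ω) ^ _), ← pow_succ, Nat.sub_add_cancel hl.pos, ← mul_assoc, ← mul_pow,
      u.inv_mul, one_pow, one_mul]
  rw [e]
  exact this

theorem span_all {F : Type} [CommRing F] (l : ℕ) [hl : Fact l.Prime] [Algebra (ZMod l) F]
    (S : Sys (ZMod l) F ι J n) (h : S.Good) :
    S.Span l ∧ IsReduced F ∧ ∀ a i g, S.z a i * g = 0 → g = 0 := by
  refine ⟨span hl.out (by rw [← map_natCast (algebraMap (ZMod l) F)]; simp) ZMod.pow_card h, ?_,
    z_reg h⟩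
  rcases isEmpty_or_nonempty ι with e | ⟨⟨a⟩⟩
  · refine ⟨fun g ⟨m, hm⟩ => ?_⟩
    obtain ⟨c, rfl⟩ : g ∈ (⊥ : Subalgebra (ZMod l) F) := by
      refine (h.gen.ge.trans (Algebra.adjoin_le ?_)) trivial
      rintro _ (⟨a, -⟩ | ⟨a, -⟩) <;> exact e.elim a
    by_cases hc : c = 0
    · rw [hc, map_zero]
    · exact (((Ne.isUnit hc).map _).pow m).mul_right_eq_zero.1 (by rw [hm, zero_mul])
  · exact reduced h a

end Pool.Agent.MP_ee8c61_ag.G34
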