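import Mathlib

/-! Etale ring maps: lifting, fibres and the relative Frobenius map. -/

set_option autoImplicit false

namespace Pool.Agent.MP_ee8c61_ag.G34

open Function TensorProduct

variable {A R B C : Type} [CommRing A] [CommRing R] [CommRing B] [CommRing C] {φ : A →+* R}

theorem et_lift (h : φ.Etale) (q : B →+* C) (hq : Surjective q) (hn : IsNilpotent (RingHom.ker q))
    (a : A →+* B) (g : R →+* C) (e : ∀ t, q (a t) = g (φ t)) :
    ∃ G : R →+* B, (∀ r, q (G r) = g r) ∧ ∀ t, G (φ t) = a t := by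
  algebraize [φ, a, q.comp a]
  let q' : B →ₐ[A] C := ⟨q, fun _ => rfl⟩
  let g' : R →ₐ[A] C := ⟨g, fun t => (e t).symm⟩
  let G := Algebra.FormallySmooth.liftOfSurjective g' q' hq hn
  exact ⟨G, Algebra.FormallySmooth.liftOfSurjective_apply g' q' hq hn, G.commutes⟩

theorem unr_ext (h : φ.FormallyUnramified) (q : B →+* C) (hn : IsNilpotent (RingHom.ker q))
    (G G' : R →+* B) (e : ∀ t, G (φ t) = G' (φ t)) (e' : ∀ r, q (G r) = q (G' r)) : G = G' := by
  algebraize [φ, G.comp φ]
  have : Algebra.FormallyUnramified A R := h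
  let G1 : R →ₐ[A] B := ⟨G, fun _ => rfl⟩
  let G2 : R →ₐ[A] B := ⟨G', fun t => (e t).symm⟩
  exact congrArg AlgHom.toRingHom (Algebra.FormallyUnramified.ext' q hn G1 G2 e')

theorem ker_flat [Algebra A R] [Module.Flat A R] {N : Type} [AddCommGroup N] [Module A N]
    (p : Ideal A) (f : A →ₗ[A] N) (hf : ∀ t, f t = 0 → t ∈ p) (r : R) (h : f 1 ⊗ₜ[A] r = 0) :
    r ∈ p.map (algebraMap A R) := by
  obtain ⟨w, hw⟩ := (Module.Flat.rTensor_exact R f.exact_subtype_ker_map ((1 : A) ⊗ₜ r)).1
    (by simpa using h)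
  have : ∀ w : LinearMap.ker f ⊗[A] R, TensorProduct.lid A R ((LinearMap.ker f).subtype.rTensor R w)
      ∈ p.map (algebraMap A R) := by
    intro w
    induction w with
    | zero => simp
    | add u v hu hv => rw [map_add, map_add]; exact add_mem hu hv
    | tmul t s =>
      rw [LinearMap.rTensor_tmul, TensorProduct.lid_tmul, Algebra.smul_def]
      exact Ideal.mul_mem_right _ _ (Ideal.mem_map_of_mem _ (hf _ t.2))
  simpa [hw] using this w

/-- the kernel of the map to the generic point of the fibre -/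
theorem ker_fibre [Algebra A R] [Module.Flat A R] (p : Ideal A) [p.IsPrime] (r : R)
    (h : (1 : p.ResidueField) ⊗ₜ[A] r = 0) : r ∈ p.map (algebraMap A R) :=
  ker_flat p (Algebra.linearMap A p.ResidueField)
    (fun _ => Ideal.algebraMap_residueField_eq_zero.1) r (by simpa using h)

/-- regular elements modulo an ideal stay regular after a flat extension -/
theorem flat_reg (h : φ.Flat) (p : Ideal A) {a : A} (ha : ∀ t, a * t ∈ p → t ∈ p) {r : R}
    (hr : φ a * r ∈ p.map φ) : r ∈ p.map φ := by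
  algebraize [φ]
  refine ker_flat p (a • Algebra.linearMap A (A ⧸ p)) (fun t ht => ha t ?_) r ?_
  · rwa [← Ideal.Quotient.eq_zero_iff_mem, map_mul, ← Ideal.Quotient.algebraMap_eq,
      ← Algebra.smul_def]
  · rw [LinearMap.smul_apply, TensorProduct.smul_tmul, Algebra.smul_def]
    refine (Ideal.map_le_iff_le_comap.2 fun t ht => ?_ : _ ≤ RingHom.ker
      (Algebra.TensorProduct.includeRight (R := A) (A := A ⧸ p) (B := R)).toRingHom) hr
    change (1 : A ⧸ p) ⊗ₜ[A] algebraMap A R t = 0
    rw [Algebra.algebraMap_eq_smul_one, ← TensorProduct.smul_tmul, ← Algebra.algebraMap_eq_smul_one,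
      Ideal.Quotient.algebraMap_eq, Ideal.Quotient.eq_zero_iff_mem.2 ht, TensorProduct.zero_tmul]

theorem fibre_zero [Algebra A R] (p : Ideal A) [p.IsPrime] {r : R}
    (h : r ∈ p.map (algebraMap A R)) : (1 : p.ResidueField) ⊗ₜ[A] r = 0 := by
  refine (Ideal.map_le_iff_le_comap.2 fun t ht => ?_ : _ ≤ RingHom.ker
    (Algebra.TensorProduct.includeRight (R := A) (A := p.ResidueField) (B := R)).toRingHom) h
  rw [Ideal.mem_comap, RingHom.mem_ker]
  change (1 : p.ResidueField) ⊗ₜ[A] algebraMap A R t = 0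
  rw [Algebra.algebraMap_eq_smul_one, ← TensorProduct.smul_tmul, ← Algebra.algebraMap_eq_smul_one,
    Ideal.algebraMap_residueField_eq_zero.2 ht, TensorProduct.zero_tmul]

/-- elements outside a prime are regular on the fibre -/
theorem et_reg (h : φ.Etale) (p : Ideal A) [hp : p.IsPrime] {a : A} (ha : a ∉ p) {r : R}
    (hr : φ a * r ∈ p.map φ) : r ∈ p.map φ :=
  flat_reg (RingHom.Etale.iff_flat_and_formallyUnramified.1 h).1 p
    (fun _ ht => (hp.mem_or_mem ht).resolve_left ha) hr

/-- the fibres are reduced -/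
theorem et_rad (h : φ.Etale) (p : Ideal A) [p.IsPrime] {r : R} {n : ℕ} (hr : r ^ n ∈ p.map φ) :
    r ∈ p.map φ := by
  algebraize [φ]
  have := Algebra.FormallyUnramified.isReduced_of_field p.ResidueField (p.ResidueField ⊗[A] R)
  refine ker_fibre p r (IsNilpotent.eq_zero ⟨n, ?_⟩)
  rw [Algebra.TensorProduct.tmul_pow, one_pow]
  exact fibre_zero p hr

/-- localizations -/
theorem loc_flat (hi : Injective φ) (h : ∀ g, ∃ u a, IsUnit (φ u) ∧ g * φ u = φ a) :
    φ.Flat ∧ φ.FormallyUnramified := by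
  algebraize [φ]
  have : IsLocalization ((IsUnit.submonoid R).comap φ) R :=
    ⟨fun u => u.2, fun g => (h g).elim fun u ⟨a, h1, h2⟩ => ⟨(a, ⟨u, h1⟩), h2⟩,
      fun e => ⟨1, by rw [hi e]⟩⟩
  exact ⟨IsLocalization.flat R ((IsUnit.submonoid R).comap φ),
    Algebra.FormallyUnramified.of_isLocalization ((IsUnit.submonoid R).comap φ)⟩

/-- reduction of an etale map -/
theorem et_quot (h : φ.Etale) (j : A →+* B) (i : R →+* C) (ψ : B →+* C) (hj : Surjective j)
    (hi : Surjective i) (e : ∀ a, ψ (j a) = i (φ a))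
    (hk : ∀ r, i r = 0 → r ∈ (RingHom.ker j).map φ) : ψ.Etale := by
  algebraize [φ, j, ψ, ψ.comp j]
  let m : B ⊗[A] R →ₐ[B] C := Algebra.TensorProduct.lift (Algebra.ofId B C)
    ⟨i, fun a => (e a).symm⟩ fun _ _ => Commute.all _ _
  have m1 : ∀ r, m (1 ⊗ₜ r) = i r := fun r => by simp [m]
  refine Algebra.Etale.of_equiv (AlgEquiv.ofBijective m ⟨(injective_iff_map_eq_zero _).2
    fun x hx => ?_, fun y => (hi y).elim fun r hr => ⟨_, (m1 r).trans hr⟩⟩)
  obtain ⟨r, rfl⟩ := Algebra.TensorProduct.includeRight_surjective R hj x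
  refine (Ideal.map_le_iff_le_comap.2 fun t ht => ?_ : _ ≤ RingHom.ker
    (Algebra.TensorProduct.includeRight (R := A) (A := B) (B := R)).toRingHom) (hk r ((m1 r).symm.trans hx))
  change (1 : B) ⊗ₜ[A] algebraMap A R t = 0
  rw [Algebra.algebraMap_eq_smul_one, ← TensorProduct.smul_tmul, ← Algebra.algebraMap_eq_smul_one,
    show algebraMap A B t = 0 from ht, TensorProduct.zero_tmul]

/-- regular elements divide nonzero elements of the base -/
theorem et_dvd [IsDomain A] (h : φ.Etale) {u : R} (hu : u ∈ nonZeroDivisors R) :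
    ∃ a, a ≠ 0 ∧ u ∣ φ a := by
  algebraize [φ]
  let F := FractionRing A
  have := Algebra.FormallyUnramified.finite_of_free F (F ⊗[A] R)
  have h1 : IsAlgebraic A ((1 : F) ⊗ₜ[A] u) := (IsFractionRing.isAlgebraic_iff A F _).2
    (Algebra.IsIntegral.isIntegral _).isAlgebraic
  exact ((isAlgebraic_algHom_iff (Algebra.TensorProduct.includeRight : R →ₐ[A] F ⊗[A] R)
    (Algebra.TensorProduct.includeRight_injective (IsFractionRing.injective A F))).1
      h1).exists_nonzero_dvd hu

/-- the relative Frobenius map of an unramified map is onto -/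
theorem unr_frob (h : φ.FormallyUnramified) (hf : φ.FiniteType) {l : ℕ} (hl : l.Prime)
    (h0 : (l : R) = 0) (T : Subring R) (h1 : ∀ t, φ t ∈ T) (h2 : ∀ r, r ^ l ∈ T) (r : R) :
    r ∈ T := by
  have e : T.subtype.comp (φ.codRestrict T h1) = φ := rfl
  have : Algebra.FormallyUnramified T R := RingHom.FormallyUnramified.of_comp (e ▸ h)
  have : Algebra.FiniteType T R := RingHom.FiniteType.of_comp_finiteType (e ▸ hf)
  have : Algebra.IsIntegral T R := ⟨fun r => IsIntegral.of_pow hl.pos
    (isIntegral_algebraMap (x := (⟨_, h2 r⟩ : T)))⟩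
  have : Module.Finite T R := Algebra.IsIntegral.finite
  have fg : (RingHom.ker (Algebra.TensorProduct.lmul' T (S := R)).toRingHom).FG :=
    KaehlerDifferential.ideal_fg T R
  have nil : IsNilpotent (RingHom.ker (Algebra.TensorProduct.lmul' T (S := R)).toRingHom) := by
    rw [fg.isNilpotent_iff_le_nilradical]
    refine (KaehlerDifferential.span_range_eq_ideal T R).ge.trans (Ideal.span_le.2 ?_)
    rintro _ ⟨s, rfl⟩
    refine mem_nilradical.2 ?_
    rcases subsingleton_or_nontrivial (R ⊗[T] R) with g | g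
    · exact ⟨0, Subsingleton.elim _ _⟩
    have : Fact l.Prime := ⟨hl⟩
    have : CharP (R ⊗[T] R) l := (CharP.charP_iff_prime_eq_zero hl).2 (by
      rw [← map_natCast (algebraMap R (R ⊗[T] R)), h0, map_zero])
    refine ⟨l, ?_⟩
    dsimp only
    rw [sub_pow_char, Algebra.TensorProduct.tmul_pow, Algebra.TensorProduct.tmul_pow, one_pow,
      sub_eq_zero]
    change (1 : R) ⊗ₜ[T] algebraMap T R ⟨_, h2 s⟩ = algebraMap T R ⟨_, h2 s⟩ ⊗ₜ 1
    rw [Algebra.algebraMap_eq_smul_one, TensorProduct.smul_tmul]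
  have : Algebra.IsEpi T R := (Algebra.isEpi_iff_forall_one_tmul_eq T R).2 fun a =>
    AlgHom.congr_fun (Algebra.FormallyUnramified.ext' _ nil Algebra.TensorProduct.includeRight
      Algebra.TensorProduct.includeLeft fun x => by simp) a
  obtain ⟨t, rfl⟩ := Algebra.isEpi_iff_surjective_algebraMap_of_finite.1 this r
  exact t.2

end Pool.Agent.MP_ee8c61_ag.G34
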