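import Pool.Agent.MP_ee8c61_ag.G34.Qu

/-! The restriction of a system of charts to a subring. -/

set_option autoImplicit false

namespace Pool.Agent.MP_ee8c61_ag.G34

open Function MvPolynomial H59

variable {k₀ k Ω ι J : Type} {n m : ℕ} [CommRing k₀] [CommRing k] [CommRing Ω] [Algebra k₀ k]
  [Algebra k Ω] [Algebra k₀ Ω] [IsScalarTower k₀ k Ω]

/-- the restriction of a derivation -/
noncomputable def rder (O : Subalgebra k₀ Ω) (D : Derivation k Ω Ω) (h : ∀ g ∈ O, D g ∈ O) :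
    Derivation k₀ O O :=
  Derivation.mk' ⟨⟨fun g => ⟨D g, h g g.2⟩, fun _ _ => Subtype.ext (map_add D _ _)⟩,
    fun c a => Subtype.ext ((D.restrictScalars k₀).map_smul c a)⟩
    fun a b => Subtype.ext (D.leibniz a b)

theorem der_adj (D : Derivation k Ω Ω) {G : Set Ω} (h : ∀ u ∈ G, D u ∈ Algebra.adjoin k₀ G) :
    ∀ g ∈ Algebra.adjoin k₀ G, D g ∈ Algebra.adjoin k₀ G := fun g hg => by
  induction hg using Algebra.adjoin_induction with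
  | mem x hx => exact h x hx
  | algebraMap c => rw [IsScalarTower.algebraMap_apply k₀ k Ω, D.map_algebraMap]; exact zero_mem _
  | add x y _ _ hx hy => rw [map_add]; exact add_mem hx hy
  | mul x y a b hx hy => rw [D.leibniz]; exact add_mem (mul_mem a hy) (mul_mem b hx)

theorem int_fin {R : Type} [CommRing R] (f : R →+* Ω) {x : Ω} (h : f.IsIntegralElem x) :
    ∃ s : Set Ω, s.Finite ∧ s ⊆ Set.range f ∧ ∀ (R' : Type) [CommRing R'] (f' : R' →+* Ω),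
      s ⊆ Set.range f' → f'.IsIntegralElem x := by
  obtain ⟨p, h1, h2⟩ := h
  refine ⟨(p.map f).coeffs, Finset.finite_toSet _,
    (Polynomial.lifts_iff_coeffs_subset_range _).1 ⟨p, rfl⟩, fun R' _ f' hs => ?_⟩
  obtain ⟨q, e, -, hq⟩ := Polynomial.lifts_and_natDegree_eq_and_monic
    ((Polynomial.lifts_iff_coeffs_subset_range _).2 hs) (h1.map f)
  exact ⟨q, hq, by rwa [← Polynomial.eval_map, e, Polynomial.eval_map]⟩

variable {O : Subalgebra k₀ Ω}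

/-- a unit of a subring -/
def ur (u : Ωˣ) (h : (u : Ω) ∈ O ∧ ((u⁻¹ : Ωˣ) : Ω) ∈ O) : Oˣ :=
  ⟨⟨u, h.1⟩, ⟨_, h.2⟩, Subtype.ext u.mul_inv, Subtype.ext u.inv_mul⟩

theorem um_ur (u : Ωˣ) (h : (u : Ω) ∈ O ∧ ((u⁻¹ : Ωˣ) : Ω) ∈ O) :
    um O.val.toRingHom (ur u h) = u := Units.ext rfl

theorem coe_coe (u : Oˣ) : O.val (u : O) = (um O.val.toRingHom u : Ω) := rfl

theorem mem_of_map {B : Subalgebra k₀ O} {T : Subalgebra k₀ Ω} (h : T ≤ B.map O.val) {g : O}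
    (hg : (g : Ω) ∈ T) : g ∈ B := by
  obtain ⟨y, hy, e⟩ := h hg
  exact Subtype.ext e ▸ hy

theorem mem_sup_val {A B : Subalgebra k₀ Ω} (hA : A ≤ O) (hB : B ≤ O) {g : O}
    (hg : (g : Ω) ∈ A ⊔ B) : g ∈ A.comap O.val ⊔ B.comap O.val :=
  mem_of_map (sup_le (fun a ha => ⟨⟨a, hA ha⟩, (le_sup_left : A.comap O.val ≤ _) ha, rfl⟩)
    fun a ha => ⟨⟨a, hB ha⟩, (le_sup_right : B.comap O.val ≤ _) ha, rfl⟩) hg

/-- subrings that a system of charts restricts to -/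
structure RD (S : Sys k Ω ι J n) (O : Subalgebra k₀ Ω) (T : ι → Subalgebra k₀ Ω) : Prop where
  le : ∀ a, T a ≤ O
  le' : ∀ a, ∀ g ∈ T a, g ∈ S.A a
  r : ∀ l, S.r l ∈ O
  R : ∀ l, ∀ g ∈ O, S.R l g ∈ O
  D : ∀ a i, ∀ g ∈ O, S.D a i g ∈ O
  z : ∀ a i, S.z a i ∈ T a
  D_mem : ∀ a i, ∀ g ∈ T a, S.D a i g ∈ T a
  η : ∀ a j, (S.η a j : Ω) ∈ O ∧ (((S.η a j)⁻¹ : Ωˣ) : Ω) ∈ O
  η_mem : ∀ a b j, ((S.η a j / S.η b j : Ωˣ) : Ω) ∈ T a ⊔ T b
  loc : ∀ a b, T b ≤ Lq (T a) (T a ⊔ T b)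

variable {S : Sys k Ω ι J n} {T : ι → Subalgebra k₀ Ω}

/-- the restricted system -/
noncomputable def RD.sys (h : RD S O T) : Sys k₀ O ι J n where
  r l := ⟨S.r l, h.r l⟩
  R l := rder O (S.R l) (h.R l)
  A a := (T a).comap O.val
  z a i := ⟨S.z a i, h.le a (h.z a i)⟩
  D a i := rder O (S.D a i) (h.D a i)
  lab := S.lab
  η a j := ur (S.η a j) (h.η a j)
  R_r i l := Subtype.ext ((S.R_r i l).trans (by split_ifs <;> rfl))
  R_comm i l g := Subtype.ext (S.R_comm i l g)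
  D_z a i l := Subtype.ext ((S.D_z a i l).trans (by split_ifs <;> rfl))
  D_R a i g := Subtype.ext ((S.D_R a i g).trans (by rw [AddSubmonoidClass.coe_finsetSum]; rfl))
  z_mem := h.z
  D_mem a i g := h.D_mem a i g
  lab_inj := S.lab_inj
  η_some a j i e := Subtype.ext (S.η_some a j i e)
  η_none a j e := Units.ext (Subtype.ext (congrArg Units.val (S.η_none a j e)))
  η_mem a b j := mem_sup_val (h.le a) (h.le b) (h.η_mem a b j)
  loc a b g hg := by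
    obtain ⟨u, h1, h2, h3⟩ := h.loc a b hg
    exact ⟨ur u ⟨h.le a h1, sup_le (h.le a) (h.le b) h2⟩, h1, mem_sup_val (h.le a) (h.le b) h2, h3⟩

theorem RD.hom (h : RD S O T) : h.sys.Hom S O.val.toRingHom :=
  ⟨fun _ => rfl, fun _ _ => rfl, fun _ _ => rfl, fun _ _ _ => rfl, rfl, fun _ _ => rfl,
    fun a g => h.le' a g⟩

theorem et_tr {A A' R R' : Type} [CommRing A] [CommRing A'] [CommRing R] [CommRing R']
    {φ : A →+* R} (h : φ.Etale) (φ' : A' →+* R') (j : A' →+* A) (i : R' →+* R) (hj : Bijective j)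
    (hi : Bijective i) (e : i.comp φ' = φ.comp j) : φ'.Etale := by
  have := RingHom.Etale.respectsIso.1 _ (RingEquiv.ofBijective i hi).symm
    (RingHom.Etale.respectsIso.2 φ (RingEquiv.ofBijective j hj) h)
  rwa [show RingHom.comp _ (φ.comp _) = φ' from RingHom.ext fun a =>
    (RingEquiv.ofBijective i hi).symm_apply_eq.2 (RingHom.congr_fun e a).symm] at this

theorem RD.good (h : RD S O T) (fg : ∀ a, (T a).FG)
    (et : ∀ a, (eval₂Hom (algebraMap k₀ (T a)) fun i => ⟨S.z a i, h.z a i⟩).Etale)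
    (gen : O ≤ Algebra.adjoin k₀
      ({g | ∃ a, g ∈ T a} ∪ {g | ∃ a j, g = (((S.η a j)⁻¹ : Ωˣ) : Ω)})) : h.sys.Good := by
  refine ⟨fun a => Subalgebra.fg_of_fg_map _ O.val Subtype.val_injective ?_, fun a => ?_,
    top_le_iff.1 fun g _ => mem_of_map (gen.trans (Algebra.adjoin_le ?_)) g.2⟩
  · exact (Subalgebra.map_comap_eq_self (f := O.val) (S := T a)
      fun g hg => ⟨⟨g, h.le a hg⟩, rfl⟩).symm ▸ fg a
  · refine et_tr (et a) _ (RingHom.id _) ((O.val.toRingHom.comp (h.sys.A a).val.toRingHom).codRestrict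
      (T a) fun g => g.2) bijective_id ⟨fun x y e => Subtype.ext (Subtype.ext
        (congrArg (Subtype.val : T a → Ω) e)), fun g => ⟨⟨⟨g, h.le a g.2⟩, g.2⟩, rfl⟩⟩ (ringHom_ext (fun c => ?_) fun i => ?_) <;>
    simp only [RingHom.comp_apply, Sys.zh, AlgHom.toRingHom_eq_coe, RingHom.coe_coe, aeval_X,
      aeval_C, RingHom.id_apply, eval₂Hom_C, eval₂Hom_X'] <;> rfl
  · rintro g (⟨a, ha⟩ | ⟨a, j, rfl⟩)
    · exact ⟨⟨g, h.le a ha⟩, Algebra.subset_adjoin (Or.inl ⟨a, ha⟩), rfl⟩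
    · exact ⟨_, Algebra.subset_adjoin (Or.inr ⟨a, j, rfl⟩), rfl⟩

theorem RD.pol [Fintype J] (h : RD S O T) {x : Fin m → Ω} {w : J → ℤ} {ρ : ι → Ωˣ}
    (hx : ∀ a l, x l ∈ T a) (hx' : ∀ l, x l ∈ O)
    (hρ : ∀ a, (ρ a : Ω) ∈ O ∧ (((ρ a)⁻¹ : Ωˣ) : Ω) ∈ O)
    (mem : ∀ a b, ((ρ a / ρ b : Ωˣ) : Ω) ∈ T b)
    (loc : ∀ a b, ∀ g ∈ T a, ∃ e : ℕ, (((ρ a / ρ b) ^ e : Ωˣ) : Ω) * g ∈ T b)
    (ord : ∀ a, ((ρ a * S.mon a w : Ωˣ) : Ω) ∈ T a ∧ (((ρ a * S.mon a w)⁻¹ : Ωˣ) : Ω) ∈ T a)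
    (int : ∀ a, ∀ g ∈ T a, IsIntegral (Algebra.adjoin k₀
      (Set.range x ∪ Set.range fun b => ((ρ b / ρ a : Ωˣ) : Ω))) g) :
    h.sys.Pol (fun l => ⟨x l, hx' l⟩) w fun a => ur (ρ a) (hρ a) := by
  refine ⟨hx, mem, fun a b g hg => (loc a b g hg).imp fun e he => ?_, fun a => ?_, fun a g hg => ?_⟩
  · change O.val _ ∈ T b
    rwa [map_mul, coe_coe, map_pow, map_div, um_ur, um_ur]
  · have e : um O.val.toRingHom (ur (ρ a) (hρ a) * h.sys.mon a w) = ρ a * S.mon a w := by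
      simp only [Sys.mon, map_mul, map_prod, map_zpow, RD.sys, um_ur]
    exact ⟨show O.val _ ∈ T a by rw [coe_coe, e]; exact (ord a).1,
      show O.val _ ∈ T a by rw [coe_coe, map_inv, e]; exact (ord a).2⟩
  · obtain ⟨s, -, h1, h2⟩ := int_fin _ (int a g hg)
    refine (isIntegral_algebraMap_iff (B := Ω) Subtype.val_injective).1 (h2 _ _ (h1.trans ?_))
    rintro _ ⟨y, rfl⟩
    obtain ⟨y', hy, e⟩ : (y : Ω) ∈ (Algebra.adjoin k₀ (Set.range (fun l => (⟨x l, hx' l⟩ : O)) ∪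
        Set.range fun b => ((ur (ρ b) (hρ b) / ur (ρ a) (hρ a) : Oˣ) : O))).map O.val := by
      refine Algebra.adjoin_le ?_ y.2
      rintro _ (⟨l, rfl⟩ | ⟨b, rfl⟩)
      · exact ⟨_, Algebra.subset_adjoin (Or.inl ⟨l, rfl⟩), rfl⟩
      · exact ⟨_, Algebra.subset_adjoin (Or.inr ⟨b, rfl⟩), rfl⟩
    exact ⟨⟨y', hy⟩, e⟩

end Pool.Agent.MP_ee8c61_ag.G34
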