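import Pool.Agent.MP_ee8c61_ag.G34.Md

/-! The models of a chart are saturated in the models of the ambient ring. -/

set_option autoImplicit false

namespace Pool.Agent.MP_ee8c61_ag.G34

open Function Filter MvPolynomial

variable {k K : Type} [CommRing K]

/-- the elements that an element of the monoid `M` multiplies into `R` -/
def Fr (R : Subring K) (M : Submonoid K) (hM : ∀ s ∈ M, s ∈ R) : Subring K where
  carrier := {u | ∃ s ∈ M, s * u ∈ R}
  zero_mem' := ⟨1, one_mem _, by simp⟩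
  one_mem' := ⟨1, one_mem _, by simp⟩
  add_mem' := fun {a b} ⟨s, hs, h⟩ ⟨t, ht, g⟩ => ⟨s * t, mul_mem hs ht, by
    convert add_mem (mul_mem (hM t ht) h) (mul_mem (hM s hs) g) using 1; ring⟩
  neg_mem' := fun ⟨s, hs, h⟩ => ⟨s, hs, by rw [mul_neg]; exact neg_mem h⟩
  mul_mem' := fun {a b} ⟨s, hs, h⟩ ⟨t, ht, g⟩ => ⟨s * t, mul_mem hs ht, by
    convert mul_mem h g using 1; ring⟩

theorem le_Fr {R : Subring K} {M : Submonoid K} {hM : ∀ s ∈ M, s ∈ R} {u : K} (h : u ∈ R) :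
    u ∈ Fr R M hM := ⟨1, one_mem _, by rwa [one_mul]⟩

/-- fractions whose denominators are units of the ambient ring -/
def Fu (R : Subring K) : Subring K :=
  Fr R (R.toSubmonoid ⊓ IsUnit.submonoid K) fun _ h => h.1

theorem mem_Fu {R : Subring K} {u : K} : u ∈ Fu R ↔ ∃ s ∈ R, IsUnit s ∧ s * u ∈ R :=
  ⟨fun ⟨s, ⟨a, b⟩, h⟩ => ⟨s, a, b, h⟩, fun ⟨s, a, b, h⟩ => ⟨s, ⟨a, b⟩, h⟩⟩

theorem Fu_inv {R : Subring K} {u v : K} (h : u ∈ Fu R) (e : u * v = 1) : v ∈ Fu R := by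
  obtain ⟨s, a, b, h⟩ := mem_Fu.1 h
  exact mem_Fu.2 ⟨_, h, b.mul (.of_mul_eq_one v e), by rwa [mul_assoc, e, mul_one]⟩

variable [Field k] {c : k →+* K} {G G' : Set K}

theorem ev_sat {σ : Type} [Finite σ] {R : Subring K} (hG : G.Finite) (hR : R = cl c G ⊤)
    (hc : ∀ a, c a ∈ R) (z : σ → K) (hz : ∀ i, z i ∈ R)
    (h : (eval₂Hom (c.codRestrict R hc) fun i => (⟨z i, hz i⟩ : R)).Etale) (hG' : G'.Finite)
    (hu : ∀ u ∈ G', u ∈ Fu R) :
    ∀ᶠ O : Subring k in FF k, ∀ l : O, Prime l → ∀ x ∈ cl c G' O, c l * x ∈ cl c G O → x ∈ cl c G O := by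
  have ex : ∀ u ∈ G', ∀ᶠ O : Subring k in FF k, ∃ a : MvPolynomial σ O, (∃ m, IsUnit (coeff m a)) ∧
      eval₂Hom (c.comp O.subtype) z a * u ∈ cl c G O := fun u hu' => by
    obtain ⟨s, h1, h2, h3⟩ := mem_Fu.1 (hu u hu')
    obtain ⟨a, ha, w, hw⟩ := et_dvd h (u := ⟨s, h1⟩) (mem_nonZeroDivisors_iff_right.2
      fun x hx => Subtype.ext (h2.mul_left_eq_zero.1 (congrArg Subtype.val hx)))
    obtain ⟨m, hm⟩ := ne_zero_iff.1 ha
    have e : eval₂Hom c z a = s * w := by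
      refine Eq.trans ?_ (congrArg Subtype.val hw)
      exact (RingHom.congr_fun (ringHom_ext (f := R.subtype.comp _) (by simp) (by simp)) a).symm
    have h4 : eval₂Hom c z a * u ∈ cl c G ⊤ := by
      rw [← hR, e, mul_right_comm]; exact mul_mem h3 w.2
    filter_upwards [ev_poly a, ev_mem (coeff m a)⁻¹, ev_cl h4] with O ⟨b, hb⟩ a2 a3
    refine ⟨b, ⟨m, IsUnit.of_mul_eq_one ⟨_, a2⟩ (Subtype.ext ?_)⟩, ?_⟩
    · rw [← hb, coeff_map] at hm
      simpa [← hb, coeff_map] using mul_inv_cancel₀ hm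
    · rwa [← hb, eval₂Hom_map_hom] at a3
  filter_upwards [ev_et hG hR hc z hz h, hG'.eventually_all.2 ex] with O ⟨hz', he, _⟩ a2 l hl x hx h1
  set φ := eval₂Hom (cc c G O) fun i => (⟨z i, hz' i⟩ : cl c G O)
  have e : ∀ a, (φ a : K) = eval₂Hom (c.comp O.subtype) z a := RingHom.congr_fun
    (ringHom_ext (f := (cl c G O).subtype.comp φ) (by simp [φ, cc]) (by simp [φ]))
  have hp : (Ideal.span {(C l : MvPolynomial σ O)}).IsPrime :=
    (Ideal.span_singleton_prime ((prime_C_iff σ).2 hl).ne_zero).2 ((prime_C_iff σ).2 hl)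
  obtain ⟨_, ⟨a, ha, rfl⟩, h2⟩ : x ∈ Fr (cl c G O) ((Ideal.span {(C l : MvPolynomial σ O)}).primeCompl.map
      (eval₂Hom (c.comp O.subtype) z)) (by rintro _ ⟨a, -, rfl⟩; exact e a ▸ (φ a).2) := by
    refine cl_le (fun a ha => le_Fr (cl_c ha)) (fun u hu' => ?_) hx
    obtain ⟨a, ⟨m, hm⟩, h3⟩ := a2 u hu'
    exact ⟨_, ⟨a, fun g => hl.not_isUnit (isUnit_of_dvd_unit ((C_dvd_iff_dvd_coeff _ _).1
      (Ideal.mem_span_singleton.1 g) m) hm), rfl⟩, h3⟩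
  have h3 := et_reg he _ ha (r := ⟨_, h1⟩) (by
    rw [Ideal.map_span, Set.image_singleton, Ideal.mem_span_singleton]
    exact ⟨⟨_, h2⟩, Subtype.ext (by simp [e]; ring)⟩)
  rw [Ideal.map_span, Set.image_singleton, Ideal.mem_span_singleton] at h3
  obtain ⟨y, hy⟩ := h3
  have h4 : c l * x = c l * y := by simpa [e] using congrArg Subtype.val hy
  have h5 : IsUnit (c l) := (Ne.isUnit fun g => hl.ne_zero (Subtype.ext g)).map c
  rw [h5.mul_left_cancel h4]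
  exact y.2

end Pool.Agent.MP_ee8c61_ag.G34
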