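import Pool.Agent.MP_ee8c61_ag.G34.Fd
import Pool.Agent.MP_ee8c61_ag.G34.Rs
import Pool.Agent.MP_ee8c61_ag.G34.Sat

/-! A system of charts restricts to its models over all large rings of coefficients. -/

set_option autoImplicit false

namespace Pool.Agent.MP_ee8c61_ag.G34

open Function MvPolynomial H59 Filter Algebra

variable {k Ω ι J : Type} {n m : ℕ} [Field k] [CommRing Ω] [Algebra k Ω]

theorem adj_eq {k₀ : Type} [CommRing k₀] [Algebra k₀ k] [Algebra k₀ Ω] [IsScalarTower k₀ k Ω]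
    {O : Subring k} (e : (algebraMap k₀ k).range = O) (G : Set Ω) :
    (adjoin k₀ G).toSubring = cl (algebraMap k Ω) G O := by
  rw [adjoin_eq_ring_closure, cl, ← e, RingHom.coe_range, ← Set.range_comp, ← RingHom.coe_comp,
    ← IsScalarTower.algebraMap_eq]

theorem mem_adj {k₀ : Type} [CommRing k₀] [Algebra k₀ k] [Algebra k₀ Ω] [IsScalarTower k₀ k Ω]
    {O : Subring k} (e : (algebraMap k₀ k).range = O) {G : Set Ω} {x : Ω} :
    x ∈ cl (algebraMap k Ω) G O ↔ x ∈ adjoin k₀ G := by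
  rw [← adj_eq e, Subalgebra.mem_toSubring]

theorem rg_top : (algebraMap k k).range = ⊤ := RingHom.range_eq_top.2 surjective_id

theorem ev_adj {G : Set Ω} {u : Ω} (h : u ∈ adjoin k G) :
    ∀ᶠ O in FF k, u ∈ cl (algebraMap k Ω) G O :=
  ev_cl ((mem_adj rg_top).2 h)

/-- a property of all rings of coefficients with image `O` -/
def Over (Ω : Type) [CommRing Ω] [Algebra k Ω] (O : Subring k)
    (P : ∀ (k₀ : Type) [CommRing k₀] [Algebra k₀ k] [Algebra k₀ Ω] [IsScalarTower k₀ k Ω], Prop) :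
    Prop :=
  ∀ (k₀ : Type) [CommRing k₀] [Algebra k₀ k] [Algebra k₀ Ω] [IsScalarTower k₀ k Ω],
    Injective (algebraMap k₀ k) → (algebraMap k₀ k).range = O → P k₀

variable [Finite ι] {S : Sys k Ω ι J n} {G : ι → Set Ω}

theorem ev_rd [Finite J] (hS : S.Good) (hG : ∀ a, (G a).Finite) (e : ∀ a, adjoin k (G a) = S.A a) :
    ∀ᶠ O in FF k, Over Ω O fun k₀ => RD S (adjoin k₀ (Ga S G)) fun a => adjoin k₀ (G a) := by
  have t : ∀ u, ∀ᶠ O in FF k, u ∈ cl (algebraMap k Ω) (Ga S G) O := fun u =>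
    ev_adj ((adj_Ga hS e).ge trivial)
  have t1 : ∀ {a u}, u ∈ S.A a → ∀ᶠ O in FF k, u ∈ cl (algebraMap k Ω) (G a) O := fun h =>
    ev_adj ((e _).ge h)
  have t2 : ∀ {a b u}, u ∈ S.A a ⊔ S.A b → ∀ᶠ O in FF k, u ∈ cl (algebraMap k Ω) (G a ∪ G b) O :=
    fun h => ev_adj (by rwa [adjoin_union, e, e])
  have t3 : ∀ a b, ∀ g ∈ G b, ∀ᶠ O in FF k, ∃ u : Ωˣ, (u : Ω) ∈ cl (algebraMap k Ω) (G a) O ∧
      ((u⁻¹ : Ωˣ) : Ω) ∈ cl (algebraMap k Ω) (G a ∪ G b) O ∧
      u * g ∈ cl (algebraMap k Ω) (G a) O := fun a b g hg => by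
    obtain ⟨u, h1, h2, h3⟩ := S.loc a b g ((e b).le (subset_adjoin hg))
    filter_upwards [t1 h1, t2 h2, t1 h3] with O a1 a2 a3 using ⟨u, a1, a2, a3⟩
  filter_upwards [eventually_all.2 fun l => t (S.r l),
    eventually_all.2 fun l => (Ga_fin (S := S) hG).eventually_all.2 fun u _ => t (S.R l u),
    eventually_all.2 fun a => eventually_all.2 fun i => (Ga_fin (S := S) hG).eventually_all.2
      fun u _ => t (S.D a i u),
    eventually_all.2 fun a => eventually_all.2 fun i => t1 (S.z_mem a i),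
    eventually_all.2 fun a => eventually_all.2 fun i => (hG a).eventually_all.2 fun u hu =>
      t1 (S.D_mem a i u ((e a).le (subset_adjoin hu))),
    eventually_all.2 fun a => eventually_all.2 fun j => t (S.η a j),
    eventually_all.2 fun a => eventually_all.2 fun b => eventually_all.2 fun j =>
      t2 (S.η_mem a b j),
    eventually_all.2 fun a => eventually_all.2 fun b => (hG b).eventually_all.2 (t3 a b)]
    with O a1 a2 a3 a4 a5 a6 a7 a8 k₀ _ _ _ _ _ hO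
  simp only [mem_adj hO, adjoin_union] at a1 a2 a3 a4 a5 a6 a7 a8
  exact ⟨fun a => adjoin_mono (le_Ga G a), fun a => (adjoin_le fun g hg => (e a).le
    (subset_adjoin hg) : _ ≤ (S.A a).restrictScalars k₀), a1, fun l => der_adj _ (a2 l),
    fun a i => der_adj _ (a3 a i), a4, fun a i => der_adj _ (a5 a i),
    fun a j => ⟨a6 a j, subset_adjoin (Or.inr ⟨(a, j), rfl⟩)⟩, a7, fun a b => adjoin_le (a8 a b)⟩

theorem ev_good [Finite J] (hS : S.Good) (hG : ∀ a, (G a).Finite)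
    (e : ∀ a, adjoin k (G a) = S.A a) :
    ∀ᶠ O in FF k, Over Ω O fun k₀ =>
      ∀ h : RD S (adjoin k₀ (Ga S G)) fun a => adjoin k₀ (G a), h.sys.Good := by
  filter_upwards [eventually_all.2 fun a => ev_et (R := (S.A a).toSubring) (hG a)
    (e a ▸ adj_eq rg_top _) (S.A a).algebraMap_mem (S.z a) (S.z_mem a)
    (zT_et (hS.et a) le_rfl (le_Lq (sup_le le_rfl le_rfl)) (hS.fg a))] with O a1 k₀ _ _ _ _ hi hO h
  refine h.good (fun a => Subalgebra.fg_def.2 ⟨_, hG a, rfl⟩) (fun a => ?_) (adjoin_mono ?_)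
  · obtain ⟨hz, h1, -⟩ := a1 a
    let j : k₀ →+* O := (algebraMap k₀ k).codRestrict O fun c => hO.le ⟨c, rfl⟩
    have hj : Bijective j := ⟨fun x y g => hi (congrArg Subtype.val g),
      fun y => (hO.ge y.2).imp fun c hc => Subtype.ext hc⟩
    refine et_tr h1 _ (map j) (RingEquiv.subringCongr (adj_eq hO (G a))).toRingHom
      ⟨map_injective j hj.1, map_surjective j hj.2⟩ (RingEquiv.bijective _)
      (ringHom_ext (fun c => ?_) fun i => ?_) <;>
    simp only [RingHom.comp_apply, eval₂Hom_C, eval₂Hom_X', map_C, map_X]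
    · exact Subtype.ext (IsScalarTower.algebraMap_apply k₀ k Ω c)
    · rfl
  · rintro g (hg | ⟨p, rfl⟩)
    · obtain ⟨a, ha⟩ := Set.mem_iUnion.1 hg
      exact Or.inl ⟨a, subset_adjoin ha⟩
    · exact Or.inr ⟨_, _, rfl⟩

theorem ev_pol [Fintype J] (hS : S.Good) (hG : ∀ a, (G a).Finite)
    (e : ∀ a, adjoin k (G a) = S.A a) {x : Fin m → Ω} {w : J → ℤ} {ρ : ι → Ωˣ} (hP : S.Pol x w ρ) :
    ∀ᶠ O in FF k, Over Ω O fun k₀ =>
      ∀ h : RD S (adjoin k₀ (Ga S G)) fun a => adjoin k₀ (G a),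
        ∃ x' ρ', (∀ l, (x' l : Ω) = x l) ∧ h.sys.Pol x' w ρ' := by
  have t : ∀ u, ∀ᶠ O in FF k, u ∈ cl (algebraMap k Ω) (Ga S G) O := fun u =>
    ev_adj ((adj_Ga hS e).ge trivial)
  have t1 : ∀ {a u}, u ∈ S.A a → ∀ᶠ O in FF k, u ∈ cl (algebraMap k Ω) (G a) O := fun h =>
    ev_adj ((e _).ge h)
  choose s s1 s2 s3 using fun a (g : G a) => int_fin _ (hP.int a g ((e a).le (subset_adjoin g.2)))
  have := fun a => (hG a).to_subtype
  filter_upwards [eventually_all.2 fun a => eventually_all.2 fun l => t1 (hP.x_mem a l),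
    eventually_all.2 fun l => t (x l),
    eventually_all.2 fun a => (t (ρ a)).and (t ((ρ a)⁻¹ : Ωˣ)),
    eventually_all.2 fun a => eventually_all.2 fun b => t1 (hP.mem a b),
    eventually_all.2 fun a => eventually_all.2 fun b => eventually_all.2 fun g : G a =>
      t1 (hP.loc a b g ((e a).le (subset_adjoin g.2))).choose_spec,
    eventually_all.2 fun a => (t1 (hP.ord a).1).and (t1 (hP.ord a).2),
    eventually_all.2 fun a => eventually_all.2 fun g => (s1 a g).eventually_all.2 fun u hu =>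
      ev_adj (show u ∈ adjoin k (Set.range x ∪ Set.range fun b => ((ρ b / ρ a : Ωˣ) : Ω)) from
        (s2 a g hu).elim fun y hy => hy ▸ y.2)]
    with O a1 a2 a3 a4 a5 a6 a7 k₀ _ _ _ _ _ hO h
  simp only [mem_adj hO] at a1 a2 a3 a4 a5 a6 a7
  refine ⟨_, _, fun _ => rfl, h.pol a1 a2 a3 a4 (fun a b g hg => ?_) a6 fun a g hg => ?_⟩
  · obtain ⟨_, ⟨e, rfl⟩, he⟩ : g ∈ Fr (adjoin k₀ (G b)).toSubring (Submonoid.powers
        ((ρ a / ρ b : Ωˣ) : Ω)) (by rintro _ ⟨e, rfl⟩; exact pow_mem (a4 a b) e) :=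
      Subring.closure_le.2 (by
        rintro u (⟨c, rfl⟩ | hu)
        · exact le_Fr ((adjoin k₀ (G b)).algebraMap_mem c)
        · exact ⟨_, ⟨_, (Units.val_pow_eq_pow_val _ _).symm⟩, a5 a b ⟨u, hu⟩⟩) (mem_adjoin_iff.1 hg)
    exact ⟨e, by rwa [Units.val_pow_eq_pow_val]⟩
  · refine (adjoin_le fun u hu => ?_ : _ ≤ (integralClosure _ Ω).restrictScalars k₀) hg
    exact s3 a ⟨u, hu⟩ _ _ fun y hy => ⟨⟨y, a7 a _ y hy⟩, rfl⟩

theorem ev_ld [Finite J] (hS : S.Good) (hG : ∀ a, (G a).Finite) (e : ∀ a, adjoin k (G a) = S.A a)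
    (a : ι) : ∀ᶠ O in FF k, Over Ω O fun k₀ => ∀ (q : ℕ) (c : Fin q → k)
      (g : Fin q → adjoin k₀ (Ga S G)), (∀ o : Fin q → k₀, ∑ i, algebraMap k₀ k (o i) * c i = 0 →
        o = 0) → ∑ i, c i • (g i : Ω) = 0 → g = 0 := by
  filter_upwards [ev_et (R := (⊤ : Subalgebra k Ω).toSubring) (Ga_fin hG)
    (adj_Ga hS e ▸ adj_eq rg_top _) (fun _ => trivial) (S.z a) (fun _ => trivial)
    (zT_et (hS.et a) le_top (top_le_Lq hS a) (top_fg hS))] with O ⟨_, _, a1⟩ k₀ _ _ _ _ _ hO q c g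
    h1 h2
  refine funext fun i => Subtype.ext (a1 _ c (fun i => g i) (fun i => (mem_adj hO).2 (g i).2)
    (fun o ho h3 i => ?_) (by simpa only [Algebra.smul_def, mul_comm] using h2) i)
  choose o' ho' using fun i => hO.ge (ho i)
  rw [← ho', h1 o' (by simpa only [ho'] using h3), Pi.zero_apply, map_zero]

theorem ev_st [Finite J] (hS : S.Good) (hG : ∀ a, (G a).Finite) (e : ∀ a, adjoin k (G a) = S.A a) :
    ∀ᶠ O in FF k, Over Ω O fun k₀ => ∀ l : k₀, Prime l → ∀ a, ∀ g ∈ adjoin k₀ (Ga S G),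
      algebraMap k₀ Ω l * g ∈ adjoin k₀ (G a) → g ∈ adjoin k₀ (G a) := by
  filter_upwards [eventually_all.2 fun a => ev_sat (R := (S.A a).toSubring) (hG a)
    (e a ▸ adj_eq rg_top _) (S.A a).algebraMap_mem (S.z a) (S.z_mem a)
    (zT_et (hS.et a) le_rfl (le_Lq (sup_le le_rfl le_rfl)) (hS.fg a)) (Ga_fin (S := S) hG)
    fun u _ => (top_le_Lq hS a (mem_top (x := u))).elim fun s hs =>
      mem_Fu.2 ⟨s, hs.1, s.isUnit, hs.2.2⟩] with O a1 k₀ _ _ _ _ hi hO l hl a g hg h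
  subst hO
  simp only [mem_adj (k₀ := k₀) rfl] at a1
  refine a1 a ((algebraMap k₀ k).rangeRestrict l) ((MulEquiv.prime_iff (RingEquiv.ofBijective _
    ⟨fun x y g => hi (congrArg Subtype.val g), (algebraMap k₀ k).rangeRestrict_surjective⟩)).2 hl)
    g hg ?_
  rwa [IsScalarTower.algebraMap_apply k₀ k Ω] at h

end Pool.Agent.MP_ee8c61_ag.G34
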