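import Pool.Agent.MP_ee8c61_ag.G34.Et

/-! Lifts of the Frobenius map modulo `l ^ 2`. -/

set_option autoImplicit false

namespace Pool.Agent.MP_ee8c61_ag.G34

open Function MvPolynomial

variable {O K B σ : Type} [CommRing O] [CommRing K] [CommRing B] {c : O →+* K} {z : σ → K}

theorem nil_of (q : K →+* B) (h : ∀ a b, q a = 0 → q b = 0 → a * b = 0) :
    IsNilpotent (RingHom.ker q) :=
  ⟨2, (pow_two _).trans (eq_bot_iff.2 (Ideal.mul_le.2 fun a ha b hb => h a b ha hb))⟩

/-- derivations along `g` that kill the constants -/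
structure FDer (c : O →+* K) (g : K →+* B) (E : K → B) : Prop where
  add : ∀ a b, E (a + b) = E a + E b
  mul : ∀ a b, E (a * b) = g a * E b + g b * E a
  con : ∀ o, E (c o) = 0

/-- a derivation along `g` that kills the coordinates vanishes -/
theorem FDer.zero {g : K →+* B} {E : K → B} (H : FDer c g E)
    (h : (eval₂Hom c z).FormallyUnramified) (hz : ∀ i, E (z i) = 0) (r : K) : E r = 0 := by
  obtain ⟨ha, hm, hc⟩ := H
  have h1 : E 1 = 0 := by simpa using hc 1
  have h0 : E 0 = 0 := by simpa using hc 0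
  let G : K →+* TrivSqZeroExt B B :=
    { toFun := fun r => TrivSqZeroExt.inl (g r) + TrivSqZeroExt.inr (E r)
      map_one' := by ext <;> simp [h1]
      map_zero' := by ext <;> simp [h0]
      map_add' := fun a b => by ext <;> simp [ha]
      map_mul' := fun a b => by ext <;> simp [hm, mul_comm] }
  have hn := nil_of (TrivSqZeroExt.fstHom B B B).toRingHom fun a b ha hb => by
    have ha' : a.fst = 0 := ha
    have hb' : b.fst = 0 := hb
    ext <;> simp [ha', hb']
  have e : G.comp (eval₂Hom c z) =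
      ((TrivSqZeroExt.inlHom B B).comp g).comp (eval₂Hom c z) :=
    ringHom_ext (fun o => by ext <;> simp [G, hc]) fun i => by ext <;> simp [G, hz]
  have := unr_ext h _ hn G ((TrivSqZeroExt.inlHom B B).comp g) (RingHom.congr_fun e)
    fun r => by simp [G]
  simpa [G] using congrArg TrivSqZeroExt.snd (RingHom.congr_fun this r)

theorem FDer.sub_sum [Algebra O K] [Fintype σ] {g : K →+* B} {E : K → B}
    (H : FDer (algebraMap O K) g E) (P : σ → Derivation O K K) (b : σ → B) :
    FDer (algebraMap O K) g fun r => E r - ∑ i, g (P i r) * b i :=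
  ⟨fun x y => by
    simp only [H.add, map_add, add_mul, Finset.sum_add_distrib]
    ring, fun x y => by
    simp only [H.mul, Derivation.leibniz, smul_eq_mul, map_add, map_mul, add_mul,
      Finset.sum_add_distrib, mul_sub, Finset.mul_sum, mul_assoc]
    ring, fun o => by simp [H.con]⟩

/-- `r ↦ r ^ l + l * δ r` is a ring map modulo `l ^ 2` that fixes the constants -/
structure IsFL (l : ℕ) (c : O →+* K) (δ : K → K) : Prop where
  add : ∀ a b, (l : K) ^ 2 ∣ (a + b) ^ l + l * δ (a + b) - (a ^ l + l * δ a) - (b ^ l + l * δ b)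
  mul : ∀ a b, (l : K) ^ 2 ∣ (a * b) ^ l + l * δ (a * b) - (a ^ l + l * δ a) * (b ^ l + l * δ b)
  con : ∀ o, (l : K) ^ 2 ∣ c o ^ l + l * δ (c o) - c o

/-- the ring map -/
def IsFL.hom {l : ℕ} {δ : K → K} (h : IsFL l c δ) : K →+* K ⧸ Ideal.span {(l : K) ^ 2} where
  toFun r := Ideal.Quotient.mk _ (r ^ l + l * δ r)
  map_one' := by
    rw [← map_one (Ideal.Quotient.mk _), Ideal.Quotient.eq, Ideal.mem_span_singleton]
    simpa using h.con 1
  map_zero' := by
    rw [Ideal.Quotient.eq_zero_iff_mem, Ideal.mem_span_singleton]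
    simpa using h.con 0
  map_add' a b := by
    rw [← map_add, Ideal.Quotient.eq, Ideal.mem_span_singleton, ← sub_sub]; exact h.add a b
  map_mul' a b := by
    rw [← map_mul, Ideal.Quotient.eq, Ideal.mem_span_singleton]; exact h.mul a b

theorem sq_le (l : K) : Ideal.span {l ^ 2} ≤ Ideal.span {l} :=
  Ideal.span_singleton_le_span_singleton.2 (dvd_pow_self l two_ne_zero)

theorem nil_fac (l : K) : IsNilpotent (RingHom.ker (Ideal.Quotient.factor (sq_le l))) := by
  refine nil_of _ fun a b ha hb => ?_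
  obtain ⟨a, rfl⟩ := Ideal.Quotient.mk_surjective a
  obtain ⟨b, rfl⟩ := Ideal.Quotient.mk_surjective b
  rw [Ideal.Quotient.factor_mk, Ideal.Quotient.eq_zero_iff_mem,
    Ideal.mem_span_singleton] at ha hb
  rw [← map_mul, Ideal.Quotient.eq_zero_iff_mem, Ideal.mem_span_singleton, sq]
  exact mul_dvd_mul ha hb

/-- the Frobenius map to the reduction -/
noncomputable def frq (K : Type) [CommRing K] {l : ℕ} (hl : l.Prime) :
    K →+* K ⧸ Ideal.span {(l : K)} where
  toFun r := Ideal.Quotient.mk _ (r ^ l)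
  map_one' := by simp
  map_zero' := by simp [hl.ne_zero]
  map_mul' a b := by rw [mul_pow, map_mul]
  map_add' a b := by
    obtain ⟨r, hr⟩ := exists_add_pow_prime_eq hl a b
    rw [← map_add, Ideal.Quotient.eq, Ideal.mem_span_singleton, hr]
    exact ⟨a * b * r, by ring⟩

theorem exists_fl (h : (eval₂Hom c z).Etale) {l : ℕ} (hl : l.Prime)
    (hO : ∀ o : O, (l : O) ∣ o ^ l - o) : ∃ δ : K → K, IsFL l c δ ∧ ∀ i, δ (z i) = 0 := by
  classical
  have e : (Ideal.Quotient.factor (sq_le (l : K))).comp ((Ideal.Quotient.mk _).comp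
      (eval₂Hom c fun i => z i ^ l)) = (frq K hl).comp (eval₂Hom c z) :=
    ringHom_ext (fun o => by
      simp only [RingHom.comp_apply, eval₂Hom_C, Ideal.Quotient.factor_mk]
      change _ = Ideal.Quotient.mk _ (c o ^ l)
      rw [eq_comm, Ideal.Quotient.eq, Ideal.mem_span_singleton]
      simpa using map_dvd c (hO o)) fun i => by simp [frq]
  obtain ⟨F, h1, h2⟩ := et_lift h (Ideal.Quotient.factor (sq_le (l : K)))
    (Ideal.Quotient.factor_surjective _) (nil_fac _)
    ((Ideal.Quotient.mk _).comp (eval₂Hom c fun i => z i ^ l)) (frq K hl) (RingHom.congr_fun e)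
  have ex : ∀ r, ∃ d : K, F r = Ideal.Quotient.mk _ (r ^ l + l * d) ∧ (r ∈ Set.range z → d = 0) := by
    intro r
    by_cases hr : r ∈ Set.range z
    · obtain ⟨i, rfl⟩ := hr
      exact ⟨0, by simpa using h2 (X i), fun _ => rfl⟩
    obtain ⟨s, hs⟩ := Ideal.Quotient.mk_surjective (F r)
    have h3 := h1 r
    rw [← hs, Ideal.Quotient.factor_mk] at h3
    obtain ⟨d, hd⟩ := Ideal.mem_span_singleton.1 (Ideal.Quotient.eq.1 h3)
    exact ⟨d, by rw [← hs, ← hd, add_sub_cancel], fun g => (hr g).elim⟩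
  choose δ hδ h0 using ex
  refine ⟨δ, ⟨fun a b => ?_, fun a b => ?_, fun o => ?_⟩, fun i => h0 _ ⟨i, rfl⟩⟩
  · rw [sub_sub, ← Ideal.mem_span_singleton, ← Ideal.Quotient.eq, map_add _ (a ^ l + _), ← hδ,
      ← hδ, ← hδ, map_add]
  · rw [← Ideal.mem_span_singleton, ← Ideal.Quotient.eq, map_mul _ (a ^ l + _), ← hδ, ← hδ, ← hδ,
      map_mul]
  · rw [← Ideal.mem_span_singleton, ← Ideal.Quotient.eq, ← hδ]
    simpa using h2 (C o)

variable {l : ℕ} {δ δ' : K → K}

/-- a lift preserves every etale subring -/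
theorem IsFL.sub (h : IsFL l c δ) (hz : ∀ i, δ (z i) = 0) (hl : l.Prime)
    (hO : ∀ o : O, (l : O) ∣ o ^ l - o) (tf : ∀ r : K, l * r = 0 → r = 0) (T : Subring K)
    (h1 : ∀ o, c o ∈ T) (h2 : ∀ i, z i ∈ T)
    (hT : (eval₂Hom (c.codRestrict T h1) fun i => (⟨z i, h2 i⟩ : T)).Etale) {r : K} (hr : r ∈ T) :
    ∃ t ∈ T, (l : K) ∣ δ r - t := by
  obtain ⟨ε, e1, e2⟩ := exists_fl hT hl hO
  let m : T ⧸ Ideal.span {(l : T) ^ 2} →+* K ⧸ Ideal.span {(l : K) ^ 2} :=
    Ideal.quotientMap _ T.subtype (Ideal.span_le.2 (by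
      rintro _ rfl
      simp))
  have e : (h.hom.comp T.subtype).comp (eval₂Hom (c.codRestrict T h1) fun i => ⟨z i, h2 i⟩) =
      (m.comp e1.hom).comp (eval₂Hom (c.codRestrict T h1) fun i => ⟨z i, h2 i⟩) :=
    ringHom_ext (fun o => by
      simp only [RingHom.comp_apply, eval₂Hom_C]
      have a1 : h.hom (c o) = Ideal.Quotient.mk _ (c o) :=
        Ideal.Quotient.eq.2 (Ideal.mem_span_singleton.2 (h.con o))
      have a2 : e1.hom (c.codRestrict T h1 o) = Ideal.Quotient.mk _ (c.codRestrict T h1 o) :=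
        Ideal.Quotient.eq.2 (Ideal.mem_span_singleton.2 (e1.con o))
      rw [a2]; exact a1) fun i => by
      simp only [RingHom.comp_apply, eval₂Hom_X']
      change Ideal.Quotient.mk _ (z i ^ l + l * δ (z i)) = Ideal.Quotient.mk _
        (((⟨z i, h2 i⟩ : T) ^ l + l * ε ⟨z i, h2 i⟩ : T) : K)
      rw [hz, e2]; simp
  have := unr_ext hT.formallyUnramified _ (nil_fac (l : K)) (h.hom.comp T.subtype) (m.comp e1.hom)
    (RingHom.congr_fun e) fun r => by
    change Ideal.Quotient.mk (Ideal.span {(l : K)}) ((r : K) ^ l + l * δ r) = Ideal.Quotient.mk _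
        ((r ^ l + l * ε r : T) : K)
    rw [Ideal.Quotient.eq, Ideal.mem_span_singleton]
    exact ⟨δ r - ε r, by push_cast; ring⟩
  obtain ⟨d, hd⟩ := Ideal.mem_span_singleton.1 (Ideal.Quotient.eq.1
    (RingHom.congr_fun this ⟨r, hr⟩ : Ideal.Quotient.mk _ (r ^ l + l * δ r) = Ideal.Quotient.mk _
      (((⟨r, hr⟩ : T) ^ l + l * ε ⟨r, hr⟩ : T) : K)))
  refine ⟨_, (ε ⟨r, hr⟩).2, d, sub_eq_zero.1 (tf _ ?_)⟩
  simp only [Subring.subtype_apply] at hd
  push_cast at hd
  linear_combination hd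

theorem dvd_cancel (tf : ∀ r : K, l * r = 0 → r = 0) {a : K} (h : (l : K) ^ 2 ∣ l * a) :
    (l : K) ∣ a := by
  obtain ⟨d, hd⟩ := h
  exact ⟨d, sub_eq_zero.1 (tf _ (by linear_combination hd))⟩

theorem IsFL.mul' (h : IsFL l c δ) (tf : ∀ r : K, l * r = 0 → r = 0) (a b : K) :
    (l : K) ∣ δ (a * b) - (a ^ l * δ b + b ^ l * δ a) := by
  refine dvd_cancel tf ?_
  obtain ⟨d, hd⟩ := h.mul a b
  exact ⟨d + δ a * δ b, by rw [mul_pow] at hd; linear_combination hd⟩

/-- the difference of two lifts is a derivation along the Frobenius map -/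
theorem IsFL.diff (h : IsFL l c δ) (h' : IsFL l c δ') (hl : l.Prime)
    (tf : ∀ r : K, l * r = 0 → r = 0) :
    FDer c (frq K hl) fun r => Ideal.Quotient.mk _ (δ r - δ' r) := by
  refine ⟨fun a b => ?_, fun a b => ?_, fun o => ?_⟩
  · rw [← map_add, Ideal.Quotient.eq, Ideal.mem_span_singleton]
    refine dvd_cancel tf ?_
    convert (h.add a b).sub (h'.add a b) using 1; ring
  · change _ = Ideal.Quotient.mk _ _ * _ + Ideal.Quotient.mk _ _ * _
    rw [← map_mul, ← map_mul, ← map_add, Ideal.Quotient.eq, Ideal.mem_span_singleton]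
    convert (h.mul' tf a b).sub (h'.mul' tf a b) using 1; ring
  · rw [Ideal.Quotient.eq_zero_iff_mem, Ideal.mem_span_singleton]
    refine dvd_cancel tf ?_
    convert (h.con o).sub (h'.con o) using 1; ring

/-- the differential of a lift, divided by `l` -/
theorem IsFL.dif [Algebra O K] (h : IsFL l (algebraMap O K) δ) (hl : l.Prime)
    (tf : ∀ r : K, l * r = 0 → r = 0) (D : Derivation O K K) :
    FDer (algebraMap O K) (frq K hl) fun r =>
      Ideal.Quotient.mk _ (r ^ (l - 1) * D r + D (δ r)) := by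
  have dl : ∀ a, D (l * a) = l * D a := fun a => by simp [Derivation.leibniz]
  have key : ∀ r, D (r ^ l + l * δ r) = l * (r ^ (l - 1) * D r + D (δ r)) := fun r => by
    rw [map_add, dl, Derivation.leibniz_pow, nsmul_eq_mul, smul_eq_mul, mul_add]
  have d2 : ∀ {a}, (l : K) ^ 2 ∣ a → (l : K) ^ 2 ∣ D a := by
    rintro _ ⟨d, rfl⟩
    exact ⟨D d, by rw [sq, mul_assoc, dl, dl, mul_assoc]⟩
  refine ⟨fun a b => ?_, fun a b => ?_, fun o => ?_⟩
  · rw [← map_add, Ideal.Quotient.eq, Ideal.mem_span_singleton]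
    refine dvd_cancel tf ?_
    have := d2 (h.add a b)
    rw [map_sub, map_sub, key, key, key] at this
    convert this using 1; ring
  · change _ = Ideal.Quotient.mk _ _ * _ + Ideal.Quotient.mk _ _ * _
    rw [← map_mul, ← map_mul, ← map_add, Ideal.Quotient.eq, Ideal.mem_span_singleton]
    refine dvd_cancel tf ?_
    have := d2 (h.mul a b)
    rw [map_sub, key, Derivation.leibniz _ (a ^ l + _), key, key, smul_eq_mul, smul_eq_mul] at this
    convert this.add (dvd_mul_right _ (δ a * (b ^ (l - 1) * D b + D (δ b)) +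
      δ b * (a ^ (l - 1) * D a + D (δ a)))) using 1
    ring
  · rw [Ideal.Quotient.eq_zero_iff_mem, Ideal.mem_span_singleton]
    refine dvd_cancel tf ?_
    simpa only [map_sub, key, D.map_algebraMap, sub_zero] using d2 (h.con o)

end Pool.Agent.MP_ee8c61_ag.G34
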