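import Pool.Agent.MP_ee8c61_ag.G34.Qu
import Pool.Agent.MP_ee8c61_ag.G34.Fl

/-! Frobenius data on the reduction of a system of charts. -/

set_option autoImplicit false

namespace Pool.Agent.MP_ee8c61_ag.G34

open Function MvPolynomial H59

variable {k O k' B ι J : Type} {n m : ℕ} [CommRing k] [CommRing O] [Algebra k O] [CommRing k']
  [CommRing B] {S : Sys k O ι J n}

/-- generators of the ambient ring -/
def Ga (S : Sys k O ι J n) (G : ι → Set O) : Set O :=
  (⋃ a, G a) ∪ Set.range fun p : ι × J => (((S.η p.1 p.2)⁻¹ : Oˣ) : O)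

theorem le_Ga (G : ι → Set O) (a : ι) : G a ⊆ Ga S G :=
  (Set.subset_iUnion G a).trans Set.subset_union_left

theorem Ga_fin [Finite ι] [Finite J] {G : ι → Set O} (hG : ∀ a, (G a).Finite) : (Ga S G).Finite :=
  (Set.finite_iUnion hG).union (Set.finite_range _)

theorem adj_Ga (h : S.Good) {G : ι → Set O} (e : ∀ a, Algebra.adjoin k (G a) = S.A a) :
    Algebra.adjoin k (Ga S G) = ⊤ := by
  refine top_le_iff.1 (h.gen.ge.trans (Algebra.adjoin_le ?_))
  rintro g (⟨a, ha⟩ | ⟨a, i, rfl⟩)
  · exact Algebra.adjoin_mono (le_Ga G a) ((e a).ge ha)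
  · exact Algebra.subset_adjoin (Or.inr ⟨(a, i), rfl⟩)

theorem top_fg [Finite ι] [Finite J] (h : S.Good) : (⊤ : Subalgebra k O).FG := by
  choose G hG e using fun a => Subalgebra.fg_def.1 (h.fg a)
  exact Subalgebra.fg_def.2 ⟨_, Ga_fin hG, adj_Ga h e⟩

theorem z_et [IsNoetherianRing k] [Finite ι] [Finite J] (h : S.Good) (a : ι) :
    (eval₂Hom (algebraMap k O) (S.z a)).Etale := by
  have := RingHom.Etale.respectsIso.1 _ (Subalgebra.topEquiv (R := k) (A := O)).toRingEquiv
    (zT_et (h.et a) le_top (top_le_Lq h a) (top_fg h))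
  rwa [show RingHom.comp _ (zT a _) = eval₂Hom (algebraMap k O) (S.z a) from
    ringHom_ext (fun c => by simp [zT]) fun i => by simp [zT]] at this

/-- a derivation along `g` is determined by its values on the reference frame -/
theorem FDer.frame {g : O →+* B} {E : O → B} (H : FDer (algebraMap k O) g E) {a : ι}
    (hu : (eval₂Hom (algebraMap k O) (S.z a)).FormallyUnramified) (x : O) :
    E x = ∑ l, g (S.R l x) * E (S.r l) := by
  have H1 := H.sub_sum S.R fun l => E (S.r l)
  refine sub_eq_zero.1 (H1.zero hu (fun i => ?_) x)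
  generalize hE : (fun x => E x - ∑ l, g (S.R l x) * E (S.r l)) = E' at H1
  have h0 : ∀ l, E' (S.r l) = 0 := fun l => by simp [← hE, S.R_r]
  have h1 := (H1.sub_sum (S.D a) fun i => E' (S.z a i)).zero hu fun i => by simp [S.D_z]
  have h2 : ∀ l, ∑ i, g (S.D a i (S.r l)) * E' (S.z a i) = 0 := fun l => by simpa [h0] using h1 (S.r l)
  have h3 : E' (S.z a i) = ∑ i', g (S.D a i' (S.z a i)) * E' (S.z a i') := by simp [S.D_z]
  rw [show E (S.z a i) - _ = E' (S.z a i) from congrFun hE _, h3]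
  simp only [fun i' => S.D_R a i' (S.z a i), map_sum, map_mul, Finset.sum_mul]
  rw [Finset.sum_comm]
  exact Finset.sum_eq_zero fun l _ => by
    simp only [mul_right_comm _ (g (S.R l _)), ← Finset.sum_mul, h2, zero_mul]

theorem un_eq [Fintype J] (S : Sys k O ι J n) (b : ι) (i : Fin n) :
    S.un b i = 1 ∨ ∃ j, S.un b i = S.η b j ∧ (S.η b j : O) = S.z b i := by
  by_cases h : ∃ j, S.lab b j = some i
  · obtain ⟨j, hj⟩ := h
    refine Or.inr ⟨j, ?_, S.η_some b j i hj⟩
    rw [Sys.un, Finset.prod_eq_single j (fun j' _ e => if_neg fun g => e (S.lab_inj b _ _ _ g hj))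
      (by simp), if_pos hj]
  · exact Or.inl (Finset.prod_eq_one fun j _ => if_neg fun g => h ⟨j, g⟩)

theorem fd [IsNoetherianRing k] [Finite ι] [Fintype J] {l : ℕ} (hl : l.Prime)
    [Algebra k' (O ⧸ Ideal.span {(l : O)})] {j : k →+* k'} {q : O →+* O ⧸ Ideal.span {(l : O)}}
    (hq : q = Ideal.Quotient.mk _) (h : QD j q) (hS : S.Good)
    (hO : ∀ o : k, (l : k) ∣ o ^ l - o) (tf : ∀ r : O, l * r = 0 → r = 0) :
    ∃ δ, (h.sys S).FD l δ := by
  choose δ h1 h2 using fun a => exists_fl (z_et hS a) hl hO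
  have fq : ∀ x, frq O hl x = q x ^ l := fun x => hq ▸ map_pow (Ideal.Quotient.mk _) x l
  have q0 : ∀ {x y}, (l : O) ∣ x - y → q x = q y := fun e =>
    hq ▸ Ideal.Quotient.eq.2 (Ideal.mem_span_singleton.2 e)
  have l0 : (l : O ⧸ Ideal.span {(l : O)}) = 0 :=
    Ideal.Quotient.eq_zero_iff_mem.2 (Ideal.mem_span_singleton_self _)
  refine ⟨fun a i => q (δ a (S.r i)), fun a i => funext fun t => ?_, fun a b i => ?_⟩
  · have := ((h1 a).dif hl tf (S.R t)).frame (z_et hS a).formallyUnramified (S.z a i)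
    simp only [h2, map_zero, add_zero, ← hq, fq, map_add, map_mul, map_pow, S.R_r, mul_add,
      Finset.sum_add_distrib, apply_ite q, mul_ite, mul_one, mul_zero,
      Finset.sum_ite_eq, Finset.mem_univ, if_true] at this
    simp only [Sys.zt, Sys.zr, Sys.hz, Sys.gr, QD.sys, h.d_q, this, map_sum, Derivation.leibniz,
      Derivation.leibniz_pow, smul_eq_mul, nsmul_eq_mul, l0, zero_mul, mul_zero, add_zero]
  · have e1 : (h.sys S).un b i = um q (S.un b i) := by
      simp only [Sys.un, map_prod, QD.sys, apply_ite (um q), map_one]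
    have e2 := ((h1 a).diff (h1 b) hl tf).frame (z_et hS a).formallyUnramified (S.z b i)
    have e3 : Sys.hz l (fun a i => q (δ a (S.r i))) a ((h.sys S).e b i) -
        Sys.hz l (fun a i => q (δ a (S.r i))) b ((h.sys S).e b i) =
        q ((((S.un b i)⁻¹ : Oˣ) : O) ^ l * δ a (S.z b i)) := by
      simp only [h2, sub_zero, ← hq, fq, map_sub] at e2
      rw [map_mul, e2]
      simp only [Sys.hz, Sys.e, e1, ← map_inv, coe_um, ← Finset.sum_sub_distrib, Finset.mul_sum]
      refine Finset.sum_congr rfl fun t _ => ?_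
      simp only [QD.sys, h.d_q, map_pow]
      ring
    have e4 : ∀ r ∈ S.A a ⊔ S.A b, q (δ a r) ∈ (h.sys S).A a ⊔ (h.sys S).A b := fun r hr => by
      obtain ⟨t, ht, e⟩ := (h1 a).sub (h2 a) hl hO tf (S.A a ⊔ S.A b).toSubring
        (S.A a ⊔ S.A b).algebraMap_mem (fun i => (le_sup_left : S.A a ≤ _) (S.z_mem a i))
        (zT_et (hS.et a) le_sup_left (sup_le_Lq a b) ((hS.fg a).sup (hS.fg b))) hr
      rw [q0 e]
      exact h.mem_sup ht
    rw [e3]
    rcases un_eq S b i with e | ⟨t, e, e'⟩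
    · rw [e, inv_one, Units.val_one, one_pow, one_mul]
      exact e4 _ ((le_sup_right : S.A b ≤ _) (S.z_mem b i))
    · have e5 : q (δ a (S.η a t)) = 0 := by
        cases g : S.lab a t with
        | none =>
          rw [S.η_none a t g, ← map_zero q]
          refine q0 ?_
          simpa using ((h1 a).mul' tf 1 1).neg_right
        | some i' => rw [S.η_some a t i' g, h2, map_zero]
      have e6 := q0 ((h1 a).mul' tf ((S.η b t / S.η a t : Oˣ) : O) (S.η a t))
      rw [← Units.val_mul, div_mul_cancel, map_add, map_mul, e5, mul_zero, zero_add] at e6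
      rw [e, ← e', map_mul, e6, ← map_mul, ← mul_assoc, ← mul_pow, ← Units.val_mul, map_mul, map_pow]
      refine mul_mem (pow_mem (h.mem_sup ?_) _) (e4 _ (sup_comm (S.A b) _ ▸ S.η_mem b a t))
      rw [mul_comm, ← div_eq_mul_inv]
      exact S.η_mem a b t

end Pool.Agent.MP_ee8c61_ag.G34
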