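import Pool.Agent.MP_ee8c61_ag.G34.Et

/-! Models of etale algebras over small rings of coefficients. -/

set_option autoImplicit false

namespace Pool.Agent.MP_ee8c61_ag.G34

open Function TensorProduct Filter

theorem et_model {A R : Type} [CommRing A] [CommRing R] {φ : A →+* R} (h : φ.Etale) :
    ∃ (s : Set A) (G : Set R), s.Finite ∧ G.Finite ∧ Subring.closure (Set.range φ ∪ G) = ⊤ ∧
      ∀ (A₀ T : Type) [CommRing A₀] [CommRing T] (j : A₀ →+* A) (φ₀ : A₀ →+* T) (i : T →+* R),
        Injective j → Injective i → s ⊆ Set.range j → (∀ a, i (φ₀ a) = φ (j a)) →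
        i.range = Subring.closure (Set.range (φ.comp j) ∪ G) → φ₀.Etale ∧
        ∀ (ι : Type) [Fintype ι] (e : ι → A) (t : ι → T),
          (∀ a : ι → A₀, ∑ n, j (a n) * e n = 0 → ∀ n, a n = 0) →
          ∑ n, i (t n) * φ (e n) = 0 → ∀ n, t n = 0 := by
  algebraize [φ]
  obtain ⟨ι, σ, _, _, P, hP⟩ := (Algebra.Etale.iff_isStandardSmoothOfRelativeDimension_zero.1
    (inferInstance : Algebra.Etale A R)).out
  have cl : ∀ (B : Type) [CommRing B] (ψ : B →+* R), (MvPolynomial.eval₂Hom ψ P.val).range =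
      Subring.closure (Set.range ψ ∪ Set.range P.val) := fun B _ ψ => by
    refine le_antisymm ?_ (Subring.closure_le.2 ?_)
    · rintro _ ⟨p, rfl⟩
      induction p using MvPolynomial.induction_on with
      | C a => exact Subring.subset_closure (Or.inl ⟨a, by simp⟩)
      | add p q hp hq => rw [map_add]; exact add_mem hp hq
      | mul_X p n hp =>
        rw [map_mul]; exact mul_mem hp (Subring.subset_closure (Or.inr ⟨n, by simp⟩))
    · rintro _ (⟨a, rfl⟩ | ⟨n, rfl⟩)
      · exact ⟨MvPolynomial.C a, by simp⟩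
      · exact ⟨MvPolynomial.X n, by simp⟩
  refine ⟨P.coeffs, Set.range P.val, P.finite_coeffs, Set.finite_range _, ?_, ?_⟩
  · rw [← cl, RingHom.range_eq_top]
    exact P.aeval_val_surjective
  intro A₀ T _ _ j φ₀ i hj hi hs e hr
  algebraize [j, φ.comp j, φ₀]
  have : FaithfulSMul A₀ A := (faithfulSMul_iff_algebraMap_injective A₀ A).2 hj
  have : P.HasCoeffs A₀ := ⟨hs⟩
  let M := P.ModelOfHasCoeffs A₀
  have : Algebra.Etale A₀ M := Algebra.Etale.iff_isStandardSmoothOfRelativeDimension_zero.2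
    ⟨_, _, _, inferInstance, P.ofHasCoeffs A₀, hP⟩
  let m : M →ₐ[A₀] R := ((P.tensorModelOfHasCoeffsEquiv A₀).toAlgHom.restrictScalars A₀).comp
    Algebra.TensorProduct.includeRight
  have hm : Injective m := (P.tensorModelOfHasCoeffsEquiv A₀).injective.comp
    (Algebra.TensorProduct.includeRight_injective hj)
  have m1 : ∀ p, m (Ideal.Quotient.mk _ p) = MvPolynomial.eval₂Hom (φ.comp j) P.val p := fun p =>
    (P.tensorModelOfHasCoeffsEquiv_tmul A₀ 1 p).trans (by rw [map_one, one_mul]; rfl)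
  have m2 : m.toRingHom.range = i.range := by
    rw [hr, ← cl]
    ext x
    exact ⟨fun ⟨y, hy⟩ => by
      obtain ⟨p, rfl⟩ := Ideal.Quotient.mk_surjective y
      exact ⟨p, (m1 p).symm.trans hy⟩, fun ⟨p, hp⟩ => ⟨_, (m1 p).trans hp⟩⟩
  let e1 := RingEquiv.ofBijective m.toRingHom.rangeRestrict
    ⟨fun _ _ g => hm (congrArg Subtype.val g), m.toRingHom.rangeRestrict_surjective⟩
  let e2 := RingEquiv.ofBijective i.rangeRestrict
    ⟨fun _ _ g => hi (congrArg Subtype.val g), i.rangeRestrict_surjective⟩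
  let e3 : M ≃ₐ[A₀] T :=
    { (e1.trans (RingEquiv.subringCongr m2)).trans e2.symm with
      commutes' := fun a => e2.symm_apply_eq.2 (Subtype.ext ((m.commutes a).trans (e a).symm)) }
  refine ⟨Algebra.Etale.of_equiv e3, fun ι _ v t h1 h2 n => ?_⟩
  have h3 : LinearIndependent A₀ v := Fintype.linearIndependent_iff.2 h1
  have h4 := Fintype.linearIndependent_iff.1
    (Module.Flat.linearIndependent_one_tmul (S := M) h3) fun n => e3.symm (t n)
  have h5 : ∀ y, m (e3.symm y) = i y := fun y => by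
    obtain ⟨y, rfl⟩ := e3.surjective y
    rw [e3.symm_apply_apply]
    exact (congrArg Subtype.val (e2.apply_symm_apply (RingEquiv.subringCongr m2 (e1 y)))).symm
  refine e3.symm.injective ((h4 ?_ n).trans (map_zero _).symm)
  refine ((Algebra.TensorProduct.comm A₀ M A).injective.eq_iff' (map_zero _)).1
    (((P.tensorModelOfHasCoeffsEquiv A₀).injective.eq_iff' (map_zero _)).1 ?_)
  rw [← h2, map_sum, map_sum]
  refine Finset.sum_congr rfl fun n _ => ?_
  rw [TensorProduct.smul_tmul', smul_eq_mul, mul_one, Algebra.TensorProduct.comm_tmul, ← h5,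
    ← mul_one (v n), ← smul_eq_mul, ← TensorProduct.smul_tmul', map_smul, Algebra.smul_def, mul_comm,
    smul_eq_mul, mul_one]
  rfl

/-- large subrings -/
def FF (k : Type) [CommRing k] : Filter (Subring k) := ⨅ a : k, 𝓟 {O | a ∈ O}

variable {k K : Type} [CommRing k] [CommRing K]

theorem ev_mem (a : k) : ∀ᶠ O in FF k, a ∈ O := mem_iInf_of_mem a (mem_principal_self _)

theorem ev_fin {P : Subring k → Prop} (h : ∀ᶠ O in FF k, P O) :
    ∃ s : Finset k, ∀ O : Subring k, (∀ a ∈ s, a ∈ O) → P O := by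
  obtain ⟨I, hI, V, h1, h2⟩ := mem_iInf.1 h
  refine ⟨hI.toFinset, fun O hO => ?_⟩
  have : O ∈ ⋂ i, V i := Set.mem_iInter.2 fun i => h1 i (hO i (hI.mem_toFinset.2 i.2))
  rwa [← h2] at this

theorem ev_poly {σ : Type} (p : MvPolynomial σ k) :
    ∀ᶠ O in FF k, p ∈ Set.range (MvPolynomial.map O.subtype) := by
  filter_upwards [(eventually_all_finset p.coeffs).2 fun a _ => ev_mem a] with O hO
  exact MvPolynomial.mem_range_map_iff_coeffs_subset.2 fun a ha => ⟨⟨a, hO a ha⟩, rfl⟩

/-- the ring generated by `G` over `O` -/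
def cl (c : k →+* K) (G : Set K) (O : Subring k) : Subring K := Subring.closure (c '' O ∪ G)

variable {c : k →+* K} {G G' : Set K} {O : Subring k}

theorem cl_c {a : k} (h : a ∈ O) : c a ∈ cl c G O := Subring.subset_closure (Or.inl ⟨a, h, rfl⟩)

theorem cl_g {u : K} (h : u ∈ G) : u ∈ cl c G O := Subring.subset_closure (Or.inr h)

theorem cl_le {T : Subring K} (h1 : ∀ a ∈ O, c a ∈ T) (h2 : ∀ u ∈ G, u ∈ T) : cl c G O ≤ T :=
  Subring.closure_le.2 (by rintro _ (⟨a, ha, rfl⟩ | h); exacts [h1 a ha, h2 _ h])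

theorem ev_cl {u : K} (h : u ∈ cl c G ⊤) : ∀ᶠ O in FF k, u ∈ cl c G O := by
  induction h using Subring.closure_induction with
  | mem x hx =>
    rcases hx with ⟨a, -, rfl⟩ | hx
    · exact (ev_mem a).mono fun O => cl_c
    · exact .of_forall fun O => cl_g hx
  | zero => exact .of_forall fun O => zero_mem _
  | one => exact .of_forall fun O => one_mem _
  | add x y _ _ hx hy => filter_upwards [hx, hy] with O using add_mem
  | neg x _ hx => filter_upwards [hx] with O using neg_mem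
  | mul x y _ _ hx hy => filter_upwards [hx, hy] with O using mul_mem

theorem ev_le (hG : G.Finite) (h : ∀ u ∈ G, u ∈ cl c G' ⊤) :
    ∀ᶠ O in FF k, cl c G O ≤ cl c G' O := by
  filter_upwards [hG.eventually_all.2 fun u hu => ev_cl (h u hu)] with O hO
  exact cl_le (fun a => cl_c) hO

/-- the constants of a model -/
def cc (c : k →+* K) (G : Set K) (O : Subring k) : O →+* cl c G O :=
  (c.comp O.subtype).codRestrict _ fun a => cl_c a.2

open MvPolynomial in
/-- the models of an etale chart are etale -/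
theorem ev_et {σ : Type} [Finite σ] {R : Subring K} (hG : G.Finite) (hR : R = cl c G ⊤)
    (hc : ∀ a, c a ∈ R) (z : σ → K) (hz : ∀ i, z i ∈ R)
    (h : (eval₂Hom (c.codRestrict R hc) fun i => (⟨z i, hz i⟩ : R)).Etale) :
    ∀ᶠ O in FF k, ∃ hz' : ∀ i, z i ∈ cl c G O,
      (eval₂Hom (cc c G O) fun i => (⟨z i, hz' i⟩ : cl c G O)).Etale ∧
      ∀ (ι : Type) [Fintype ι] (e : ι → k) (t : ι → K), (∀ n, t n ∈ cl c G O) →
        (∀ a : ι → k, (∀ n, a n ∈ O) → ∑ n, a n * e n = 0 → ∀ n, a n = 0) →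
        ∑ n, t n * c (e n) = 0 → ∀ n, t n = 0 := by
  obtain ⟨s, H, hs, hH, h1, h2⟩ := et_model h
  let G' : Set K := Set.range z ∪ R.subtype '' H
  have key : ∀ (O : Subring k) (x : R), x ∈ Subring.closure (Set.range ((eval₂Hom
      (c.codRestrict R hc) fun i => (⟨z i, hz i⟩ : R)).comp (map O.subtype)) ∪ H) ↔
      (x : K) ∈ cl c G' O := fun O x => by
    have e : ∀ T : Subring R, x ∈ T ↔ (x : K) ∈ T.map R.subtype := fun T =>
      ⟨fun g => ⟨x, g, rfl⟩, fun ⟨y, g, e⟩ => Subtype.ext e ▸ g⟩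
    rw [e, RingHom.map_closure]
    refine ⟨fun g => Subring.closure_le.2 ?_ g, fun g => cl_le (fun a ha => ?_) (fun u hu => ?_) g⟩
    · rintro _ ⟨y, ⟨p, rfl⟩ | hy, rfl⟩
      · induction p using MvPolynomial.induction_on with
        | C a => simpa using cl_c a.2
        | add p q hp hq => rw [map_add, map_add]; exact add_mem hp hq
        | mul_X p n hp =>
          rw [map_mul, map_mul]; exact mul_mem hp (by simpa using cl_g (G := G') (Or.inl ⟨n, rfl⟩))
      · exact cl_g (Or.inr ⟨y, hy, rfl⟩)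
    · exact Subring.subset_closure ⟨_, Or.inl ⟨C (⟨a, ha⟩ : O), rfl⟩, by simp⟩
    · rcases hu with ⟨i, rfl⟩ | ⟨y, hy, rfl⟩
      · exact Subring.subset_closure ⟨_, Or.inl ⟨X i, rfl⟩, by simp⟩
      · exact Subring.subset_closure ⟨_, Or.inr hy, rfl⟩
  have top : ∀ x ∈ R, x ∈ cl c G' ⊤ := fun x hx => (key ⊤ ⟨x, hx⟩).1 (by
    refine Subring.closure_mono (Set.union_subset_union_left _ ?_) (h1.ge (Subring.mem_top _))
    rintro _ ⟨p, rfl⟩
    obtain ⟨q, rfl⟩ := map_surjective _ (fun a => ⟨⟨a, trivial⟩, rfl⟩ :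
      Surjective (⊤ : Subring k).subtype) p
    exact ⟨q, rfl⟩)
  filter_upwards [hs.eventually_all.2 fun p _ => ev_poly p,
    ev_le (c := c) (G' := G') hG fun u hu => top u (hR ▸ cl_g hu),
    ev_le (c := c) (G' := G) ((Set.finite_range z).union (hH.image R.subtype)) fun u hu => by
      rw [← hR]
      rcases hu with ⟨i, rfl⟩ | ⟨y, -, rfl⟩
      exacts [hz i, y.2]] with O a1 a2 a3
  have le : cl c G O ≤ R := hR ▸ cl_le (fun a _ => cl_c trivial) fun u => cl_g
  refine ⟨fun i => a3 (cl_g (Or.inl ⟨i, rfl⟩)), (h2 _ _ (map O.subtype) _ (Subring.inclusion le)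
    (map_injective _ O.subtype_injective) (Subring.inclusion_injective le) a1
    (RingHom.congr_fun (ringHom_ext (f := (Subring.inclusion le).comp _)
      (g := (eval₂Hom _ _).comp (map O.subtype)) (fun a => ?_) fun i => ?_)) ?_).imp_right
        fun H ι _ e t ht b1 b2 n => ?_⟩
  · simp only [RingHom.comp_apply, eval₂Hom_C, map_C]; rfl
  · simp only [RingHom.comp_apply, eval₂Hom_X', map_X]; rfl
  · ext x
    rw [key]
    exact ⟨fun ⟨y, hy⟩ => hy ▸ a2 y.2, fun g => ⟨⟨x, a3 g⟩, rfl⟩⟩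
  · refine congrArg Subtype.val (H ι (fun n => C (e n)) (fun n => ⟨t n, ht n⟩) (fun a ha n => ?_)
      (Subtype.ext ?_) n)
    · ext m
      refine b1 (fun n => (coeff m (a n) : O)) (fun n => Subtype.prop _) ?_ n
      simpa [coeff_sum, mul_comm _ (C _), coeff_map, mul_comm] using congrArg (coeff m) ha
    · simpa using b2

end Pool.Agent.MP_ee8c61_ag.G34
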