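import Pool.Agent.MP_ee8c61_ag.G34.Sy

/-! The image of a system of charts in a quotient ring. -/

set_option autoImplicit false

namespace Pool.Agent.MP_ee8c61_ag.G34

open Function MvPolynomial H59

variable {k O k' F ι J : Type} {n m : ℕ} [CommRing k] [CommRing O] [Algebra k O] [CommRing k']
  [CommRing F] [Algebra k' F] {j : k →+* k'} {q : O →+* F}

/-- the preimage of a subalgebra -/
def cmp (h : ∀ c, q (algebraMap k O c) = algebraMap k' F (j c)) (T : Subalgebra k' F) :
    Subalgebra k O :=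
  { T.toSubring.comap q with
    algebraMap_mem' := fun c => by
      change q _ ∈ T
      rw [h]; exact T.algebraMap_mem _ }

theorem map_sup_mem (h : ∀ c, q (algebraMap k O c) = algebraMap k' F (j c))
    {A B : Subalgebra k O} {T : Subalgebra k' F} (hA : ∀ g ∈ A, q g ∈ T) (hB : ∀ g ∈ B, q g ∈ T)
    {g : O} (hg : g ∈ A ⊔ B) : q g ∈ T :=
  (sup_le hA hB : A ⊔ B ≤ cmp h T) hg

theorem map_adj (h : ∀ c, q (algebraMap k O c) = algebraMap k' F (j c)) {s : Set O}
    {T : Subalgebra k' F} (hs : ∀ g ∈ s, q g ∈ T) {g : O} (hg : g ∈ Algebra.adjoin k s) :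
    q g ∈ T :=
  (Algebra.adjoin_le hs : _ ≤ cmp h T) hg

/-- quotient maps that all derivations respect -/
structure QD (j : k →+* k') (q : O →+* F) : Prop where
  hj : Surjective j
  hq : Surjective q
  alg : ∀ c, q (algebraMap k O c) = algebraMap k' F (j c)
  st : ∀ (D : Derivation k O O) g, q g = 0 → q (D g) = 0

theorem QD.der (h : QD j q) (D : Derivation k O O) :
    ∃ D' : Derivation k' F F, ∀ g, D' (q g) = q (D g) := by
  have e : ∀ g, q (D (surjInv h.hq (q g))) = q (D g) := fun g => by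
    rw [← sub_eq_zero, ← map_sub, ← map_sub]
    exact h.st D _ (by rw [map_sub, surjInv_eq h.hq, sub_self])
  refine ⟨Derivation.mk' ⟨⟨fun y => q (D (surjInv h.hq y)), h.hq.forall₂.2 fun a b => ?_⟩,
    h.hj.forall.2 fun c => h.hq.forall.2 fun a => ?_⟩ (h.hq.forall₂.2 fun a b => ?_), e⟩
  · rw [← map_add, e, e, e, map_add, map_add]
  · dsimp only [RingHom.id_apply]
    rw [Algebra.smul_def, Algebra.smul_def, ← h.alg, ← map_mul, e, e, ← map_mul, ← Algebra.smul_def,
      ← Algebra.smul_def, D.map_smul]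
  · dsimp only [LinearMap.coe_mk, AddHom.coe_mk]
    rw [← map_mul, e, e, e, D.leibniz]
    simp

/-- the induced derivation -/
noncomputable def QD.d (h : QD j q) (D : Derivation k O O) : Derivation k' F F := (h.der D).choose

theorem QD.d_q (h : QD j q) (D : Derivation k O O) (g : O) : h.d D (q g) = q (D g) :=
  (h.der D).choose_spec g

/-- the image of a subalgebra -/
def QD.sub (h : QD j q) (A : Subalgebra k O) : Subalgebra k' F :=
  { A.toSubring.map q with
    algebraMap_mem' := fun c => by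
      obtain ⟨c, rfl⟩ := h.hj c
      exact ⟨_, A.algebraMap_mem c, h.alg c⟩ }

theorem QD.mem (h : QD j q) {A : Subalgebra k O} {g : O} (hg : g ∈ A) : q g ∈ h.sub A :=
  ⟨g, hg, rfl⟩

theorem QD.mem_sup (h : QD j q) {A B : Subalgebra k O} {g : O} (hg : g ∈ A ⊔ B) :
    q g ∈ h.sub A ⊔ h.sub B :=
  map_sup_mem h.alg (fun _ e => (le_sup_left : h.sub A ≤ _) (h.mem e))
    (fun _ e => (le_sup_right : h.sub B ≤ _) (h.mem e)) hg

/-- the image of a unit -/
def um (q : O →+* F) : Oˣ →* Fˣ := Units.map q.toMonoidHom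

theorem coe_um (u : Oˣ) : (um q u : F) = q u := rfl

/-- the image of a system -/
noncomputable def QD.sys (h : QD j q) (S : Sys k O ι J n) : Sys k' F ι J n where
  r l := q (S.r l)
  R l := h.d (S.R l)
  A a := h.sub (S.A a)
  z a i := q (S.z a i)
  D a i := h.d (S.D a i)
  lab := S.lab
  η a i := um q (S.η a i)
  R_r i l := by rw [h.d_q, S.R_r]; split_ifs <;> simp
  R_comm i l := h.hq.forall.2 fun g => by simp only [h.d_q, S.R_comm i l]
  D_z a i l := by rw [h.d_q, S.D_z]; split_ifs <;> simp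
  D_R a i := h.hq.forall.2 fun g => by
    rw [h.d_q, S.D_R]
    simp only [h.d_q, map_sum, map_mul]
  z_mem a i := h.mem (S.z_mem a i)
  D_mem a i := by
    rintro _ ⟨g, hg, rfl⟩
    rw [h.d_q]
    exact h.mem (S.D_mem a i g hg)
  lab_inj := S.lab_inj
  η_some a i l e := congrArg q (S.η_some a i l e)
  η_none a i e := by rw [S.η_none a i e, map_one]
  η_mem a b i := by rw [← map_div]; exact h.mem_sup (S.η_mem a b i)
  loc a b := by
    rintro _ ⟨g, hg, rfl⟩
    obtain ⟨u, h1, h2, h3⟩ := S.loc a b g hg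
    exact ⟨um q u, h.mem h1, by rw [← map_inv]; exact h.mem_sup h2, by
      rw [coe_um, ← map_mul]; exact h.mem h3⟩

variable {S : Sys k O ι J n}

theorem QD.hom (h : QD j q) : S.Hom (h.sys S) q :=
  ⟨fun _ => rfl, fun _ _ => (h.d_q _ _).symm, fun _ _ => rfl, fun _ _ _ => (h.d_q _ _).symm, rfl,
    fun _ _ => rfl, fun _ _ => h.mem⟩

theorem QD.good (h : QD j q) (hS : S.Good) {l : k} (hl : j l = 0)
    (hk : ∀ a, ∀ g ∈ S.A a, q g = 0 → ∃ g' ∈ S.A a, g = algebraMap k O l * g') :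
    (h.sys S).Good := by
  refine ⟨fun a => ?_, fun a => ?_, top_le_iff.1 fun y _ => ?_⟩
  · obtain ⟨G, hG, e⟩ := Subalgebra.fg_def.1 (hS.fg a)
    refine Subalgebra.fg_def.2 ⟨q '' G, hG.image q, le_antisymm (Algebra.adjoin_le ?_) ?_⟩
    · rintro _ ⟨g, hg, rfl⟩
      exact h.mem (e.le (Algebra.subset_adjoin hg))
    · rintro _ ⟨g, hg, rfl⟩
      exact map_adj h.alg (fun g hg => Algebra.subset_adjoin (Set.mem_image_of_mem q hg)) (e.ge hg)
  · let i : S.A a →+* (h.sys S).A a := (q.comp (S.A a).val.toRingHom).codRestrict _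
      fun g => h.mem g.2
    refine et_quot (hS.et a) (map j) i _ (map_surjective j h.hj)
      (fun ⟨_, g, hg, e⟩ => ⟨⟨g, hg⟩, Subtype.ext e⟩) (RingHom.congr_fun (ringHom_ext
        (f := ((h.sys S).zh a).toRingHom.comp (map j)) (g := i.comp (S.zh a).toRingHom)
        (fun c => Subtype.ext ?_) fun c => Subtype.ext ?_)) fun g hg => ?_
    · simpa [i] using (h.alg c).symm
    · simp only [RingHom.comp_apply, map_X, Sys.zh, AlgHom.toRingHom_eq_coe, RingHom.coe_coe,
        aeval_X]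
      rfl
    · obtain ⟨g', h1, h2⟩ := hk a g g.2 (congrArg Subtype.val hg)
      rw [show g = (S.zh a).toRingHom (C l) * ⟨g', h1⟩ from Subtype.ext (by simpa using h2)]
      exact Ideal.mul_mem_right _ _ (Ideal.mem_map_of_mem _ (by simp [RingHom.mem_ker, hl]))
  · obtain ⟨g, rfl⟩ := h.hq y
    refine map_adj h.alg ?_ (hS.gen.ge trivial)
    rintro _ (⟨a, ha⟩ | ⟨a, i, rfl⟩)
    · exact Algebra.subset_adjoin (Or.inl ⟨a, h.mem ha⟩)
    · exact Algebra.subset_adjoin (Or.inr ⟨a, i, rfl⟩)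

theorem QD.pol [Fintype J] (h : QD j q) {x : Fin m → O} {w : J → ℤ} {ρ : ι → Oˣ}
    (hS : S.Pol x w ρ) : (h.sys S).Pol (fun l => q (x l)) w fun a => um q (ρ a) := by
  refine ⟨fun a l => h.mem (hS.x_mem a l), fun a b => ?_, fun a b => ?_, fun a => ?_, fun a => ?_⟩
  · rw [← map_div]; exact h.mem (hS.mem a b)
  · rintro _ ⟨g, hg, rfl⟩
    refine (hS.loc a b g hg).imp fun e he => ?_
    rw [← map_div, ← map_pow, coe_um, ← map_mul]
    exact h.mem he
  · have e : um q (ρ a) * (h.sys S).mon a w = um q (ρ a * S.mon a w) := by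
      simp only [Sys.mon, map_mul, map_prod, map_zpow, QD.sys]
    rw [e]
    exact ⟨h.mem (hS.ord a).1, by rw [← map_inv]; exact h.mem (hS.ord a).2⟩
  · rintro _ ⟨g, hg, rfl⟩
    refine IsIntegral.map_of_comp_eq ((q.comp (Subalgebra.val _).toRingHom).codRestrict _
      fun y => map_adj h.alg ?_ y.2) q (RingHom.ext fun _ => rfl) (hS.int a g hg)
    rintro _ (⟨l, rfl⟩ | ⟨b, rfl⟩)
    · exact Algebra.subset_adjoin (Or.inl ⟨l, rfl⟩)
    · exact Algebra.subset_adjoin (Or.inr ⟨b, by simp only [← map_div, coe_um]⟩)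

end Pool.Agent.MP_ee8c61_ag.G34
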